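import Mathlib

/-!
# Uniform exponents: large grids with countably many colours have monochromatic finite subgrids
-/

set_option autoImplicit false

namespace Pool.Agent.W2helper76.UE

/-- A countable colouring of a large grid has a monochromatic finite subgrid. -/
theorem pigeon (B : ℕ) (hB : 0 < B) : ∀ G : ℕ, ∃ S : Type, Nonempty S ∧ ∀ c : (Fin G → S) → ℕ,
    ∃ (A : Fin G → Fin B → S) (n : ℕ), (∀ g, Function.Injective (A g)) ∧
      ∀ η : Fin G → Fin B, c (fun g => A g (η g)) = n := by
  classical
  intro G
  induction G with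
  | zero =>
    exact ⟨Unit, inferInstance, fun c => ⟨Fin.elim0, c Fin.elim0, fun g => g.elim0,
      fun η => congrArg c (funext fun g => g.elim0)⟩⟩
  | succ G ih =>
    obtain ⟨S, ⟨s₀⟩, hS⟩ := ih
    set Dt : Type := (Fin G → Fin B → S) × ℕ with hDt
    set S' : Type := S ⊕ Set (Dt × Fin B) with hS'
    refine ⟨S', ⟨Sum.inl s₀⟩, fun c => ?_⟩
    -- the data attached to an element of the last group
    have h1 : ∀ y : Set (Dt × Fin B), ∃ d : Dt, (∀ g, Function.Injective (d.1 g)) ∧
        ∀ η : Fin G → Fin B, c (Fin.snoc (fun g => (Sum.inl (d.1 g (η g)) : S')) (Sum.inr y)) = d.2 := by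
      intro y
      obtain ⟨A, n, h2, h3⟩ := hS (fun f => c (Fin.snoc (fun g => (Sum.inl (f g) : S')) (Sum.inr y)))
      exact ⟨(A, n), h2, h3⟩
    choose d hd1 hd2 using h1
    -- some fibre has at least `B` elements
    have h2 : ∃ (d₀ : Dt) (Y : Fin B → Set (Dt × Fin B)), Function.Injective Y ∧ ∀ i, d (Y i) = d₀ := by
      by_contra hcon
      push Not at hcon
      have h3 : ∀ d₀ : Dt, ∃ t : Finset (Set (Dt × Fin B)), (∀ y, d y = d₀ → y ∈ t) ∧ t.card < B := by
        intro d₀
        have hfin : {y | d y = d₀}.Finite := by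
          by_contra hinf
          have hinf' : {y | d y = d₀}.Infinite := hinf
          obtain ⟨t, ht1, ht2⟩ := hinf'.exists_subset_card_eq B
          let e := t.equivFin
          obtain ⟨i, hi⟩ := hcon d₀ (fun i => (e.symm (Fin.cast ht2.symm i) : t)) (by
            intro i j hij
            have h4 := e.symm.injective (Subtype.ext hij)
            exact Fin.cast_injective _ h4)
          exact hi (ht1 (e.symm (Fin.cast ht2.symm i)).2)
        refine ⟨hfin.toFinset, fun y hy => hfin.mem_toFinset.2 hy, ?_⟩
        by_contra hlt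
        push Not at hlt
        obtain ⟨t, ht1, ht2⟩ := Finset.exists_subset_card_eq hlt
        let e := t.equivFin
        obtain ⟨i, hi⟩ := hcon d₀ (fun i => (e.symm (Fin.cast ht2.symm i) : t)) (by
          intro i j hij
          have h4 := e.symm.injective (Subtype.ext hij)
          exact Fin.cast_injective _ h4)
        exact hi (hfin.mem_toFinset.1 (ht1 (e.symm (Fin.cast ht2.symm i)).2))
      choose t ht1 ht2 using h3
      -- an injection of the power set
      let F : Set (Dt × Fin B) → Dt × Fin B := fun y =>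
        (d y, ⟨((t (d y)).equivFin ⟨y, ht1 _ _ rfl⟩ : ℕ),
          lt_trans ((t (d y)).equivFin ⟨y, ht1 _ _ rfl⟩).2 (ht2 _)⟩)
      apply Function.cantor_injective F
      intro y y' hyy
      have h4 : d y = d y' := congrArg Prod.fst hyy
      have h5 : (((t (d y)).equivFin ⟨y, ht1 _ _ rfl⟩ : ℕ)) =
          ((t (d y')).equivFin ⟨y', ht1 _ _ rfl⟩ : ℕ) := by
        have := congrArg (fun q => ((Prod.snd q : Fin B) : ℕ)) hyy
        exact this
      have h6 : ∀ (a b : Dt) (hab : a = b) (ha : y ∈ t a) (hb : y' ∈ t b),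
          ((t a).equivFin ⟨y, ha⟩ : ℕ) = ((t b).equivFin ⟨y', hb⟩ : ℕ) → y = y' := by
        rintro a _ rfl ha hb hab
        have := (t a).equivFin.injective (Fin.ext hab)
        exact congrArg Subtype.val this
      exact h6 _ _ h4 _ _ h5
    obtain ⟨d₀, Y, hY, hYd⟩ := h2
    refine ⟨Fin.snoc (fun g i => (Sum.inl (d₀.1 g i) : S')) (fun i => (Sum.inr (Y i) : S')), d₀.2,
      ?_, ?_⟩
    · intro g
      refine Fin.lastCases ?_ (fun g => ?_) g
      · rw [Fin.snoc_last]
        intro i j hij
        exact hY (Sum.inr_injective hij)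
      · rw [Fin.snoc_castSucc]
        intro i j hij
        have h7 := hd1 (Y ⟨0, hB⟩) g
        rw [hYd] at h7
        exact h7 (Sum.inl_injective hij)
    · intro η
      have h7 := hd2 (Y (η (Fin.last G))) (fun g => η g.castSucc)
      rw [hYd] at h7
      rw [← h7]
      congr 1
      funext g
      refine Fin.lastCases ?_ (fun g => ?_) g
      · rw [Fin.snoc_last, Fin.snoc_last]
      · rw [Fin.snoc_castSucc, Fin.snoc_castSucc]

end Pool.Agent.W2helper76.UE
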