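import Mathlib

/-!
# Uniform exponents: statements

Project of helper76 for MP_c82530_nt (Gel'fond's conjecture for all exponents at once, hard problem).

Aim: for all `M`, `D`, `k` and all but `C (log log x) ^ C / log x * x ^ k` of the `k`-tuples `n` of
positive integers up to `x`, for ALL tuples of `M` distinct algebraic numbers `γ_1, …, γ_M` the numbers
`e ^ γ_j ∏ (log n_i) ^ (a_i)`, `0 ≤ a_i ≤ D`, are linearly independent over the field of the
algebraic numbers; the same for random combinations of arbitrary logarithms.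

helper76 proves `GridStm` from `EnlargeStm` and `UltraStm`.
Pieces for the squad (independent of each other): `EnlargeStm` (Zorn), `UltraStm` (ultrapower),
`GridStm → DensStm`, `GridStm → RandStm`, `PolyStm`.
-/

set_option autoImplicit false

namespace Pool.Agent.W2helper76.UE

/-- the values of the exponential function `E` at different elements of `Γ` are linearly independent
over `κ` -/
def LWI (κ : Type) {C Γ : Type} [Field κ] [Field C] [Algebra κ C] [AddCommGroup Γ]
    (E : Multiplicative Γ →* C) : Prop :=
  LinearIndependent κ (fun γ : Γ => E (Multiplicative.ofAdd γ))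

/-- `x` satisfies a nontrivial equation of degree at most `D` whose coefficients are linear
combinations over `κ` of the `v l * E (γ j)`, for some `M` elements `γ j` of `Γ` -/
def Bad (κ : Type) {C Γ L : Type} [Field κ] [Field C] [Algebra κ C] [AddCommGroup Γ] [Fintype L]
    (E : Multiplicative Γ →* C) (M D : ℕ) (v : L → C) (x : C) : Prop :=
  ∃ (γ : Fin M → Γ) (c : L → Fin (D + 1) → Fin M → κ),
    ∑ l, ∑ i, ∑ j, c l i j • (v l * x ^ (i : ℕ) * E (Multiplicative.ofAdd (γ j))) = 0 ∧
    ∃ i, ∑ l, ∑ j, c l i j • (v l * E (Multiplicative.ofAdd (γ j))) ≠ 0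

/-- the field of the algebraic numbers -/
noncomputable abbrev QB : IntermediateField ℚ ℂ := algebraicClosure ℚ ℂ

/-- the exponential function on the algebraic numbers -/
noncomputable def expQ : Multiplicative QB →* ℂ where
  toFun γ := Complex.exp ((Multiplicative.toAdd γ : QB) : ℂ)
  map_one' := by simp
  map_mul' a b := by
    rw [toAdd_mul]
    push_cast
    rw [Complex.exp_add]

/-! ### Piece 1: a maximal constant field (Zorn)

Take (Zorn) a maximal intermediate field `κ'` with `LWI κ' E` (`{κ' | LWI κ' E}` contains `⊥` and is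
closed under unions of nonempty chains: a finite linear relation involves finitely many coefficients).
If some `x` is not algebraic over `F = κ'(E)`, let `κ'' = κ'(x)`. An element of `κ''` is a quotient of
polynomials in `x` over `κ'`. Given `∑ c_j E(γ_j) = 0` with `c_j` in `κ''`, multiply by a common
denominator: `∑ p_j(x) E(γ_j) = 0` with `p_j` in `κ'[X]`. The polynomial `∑ p_j E(γ_j)` over `F`
vanishes at `x`, which is transcendental over `F`, so it is `0`; its coefficients are relations over
`κ'`, hence all `p_j = 0`. So `LWI κ'' E`, a contradiction to the maximality. -/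

def EnlargeStm : Prop :=
  ∀ (κ C Γ : Type) [Field κ] [Field C] [Algebra κ C] [AddCommGroup Γ] (E : Multiplicative Γ →* C),
    LWI κ E → ∃ κ' : IntermediateField κ C, LWI κ' E ∧
      ∀ x : C, IsAlgebraic (IntermediateField.adjoin κ' (Set.range E)) x

/-! ### Piece 2: ultrapower

Fix `N M D G`. Suppose that for every `B` there is an exceptional grid with `G` groups of `B`
directions (over `ℂ`). Then for every type `S` there is an exceptional grid with `G` groups of
directions indexed by `S`, in an ultrapower. Index set `I = Finset S`, `U` an ultrafilter containing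
all `{F | s ∈ F}` (for instance `Ultrafilter.of Filter.atTop`). For `F` in `I` take the exceptional
grid for `B = F.card` and identify `Fin B` with `F` (`F.equivFin`). `κ`, `C`, `Γ` are the
ultrapowers (`Filter.Germ`) of `QB`, `ℂ`, `QB`, and `E` is the map induced by `exp`. A library for
ultrapowers of fields (`pr`, `gm`, `pr_sum`, `closed`: algebraically closed) is in
`Pool/Agent/NH29/GN/Stb.lean`. `LWI` is the theorem of Lindemann-Weierstrass
(`Pool.Agent.H340R2.LW.lindemann_weierstrass`; see `Pool/Agent/H351R3/Gel/Sigma.lean`,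
`lift_injective`) plus Łoś: finitely many distinct elements of the ultrapower have distinct
coordinates almost everywhere. `ρ q = exp (q * log 2)`, see `charOf` in
`Pool/Agent/H351R3/Gel/Char.lean`. `u g s` is the class of `F ↦ w_F g s` (`0` if `s ∉ F`), and
`x₀`, `v` are the classes of the data of the grids. -/

def UltraStm : Prop :=
  ∀ (N M D G : ℕ),
    (∀ B : ℕ, ∃ (v : Fin N → ℂ) (x₀ : ℂ) (w : Fin G → Fin B → ℂ), (∀ g, LinearIndependent QB (w g)) ∧
      ∀ η : Fin G → Option (Fin B), Bad QB expQ M D v (x₀ + ∑ g, (η g).elim 0 (w g))) →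
    ∀ S : Type, ∃ (κ C Γ : Type) (_ : Field κ) (_ : Field C) (_ : Algebra κ C)
      (_ : AddCommGroup Γ) (_ : Module ℚ Γ) (E : Multiplicative Γ →* C)
      (ρ : Multiplicative ℚ →* κ) (v : Fin N → C) (x₀ : C) (u : Fin G → S → C),
      IsAlgClosed κ ∧ CharZero κ ∧ IsAlgClosed C ∧ LWI κ E ∧
      (∀ q : ℚ, q ≠ 0 → ρ (Multiplicative.ofAdd q) ≠ 1) ∧
      (∀ g, LinearIndependent κ (u g)) ∧
      ∀ f : Fin G → S, Bad κ E M D v (x₀ + ∑ g, u g (f g))

/-! ### The grid theorem (helper76) -/

def GridStm : Prop :=
  ∀ (N M D : ℕ), ∃ G B : ℕ, ∀ (v : Fin N → ℂ) (x₀ : ℂ) (w : Fin G → Fin B → ℂ),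
    (∀ g, LinearIndependent QB (w g)) →
    ∃ η : Fin G → Option (Fin B), ¬ Bad QB expQ M D v (x₀ + ∑ g, (η g).elim 0 (w g))

/-! ### Pieces 3, 4: density and random combinations

`Good` is the aim. Add one logarithm at a time. Use the intermediate notion `GoodV M v`: for all
injective `γ : Fin M → QB` the `v l * exp (γ j)` are linearly independent over `QB`. The constant
family `1` is `GoodV` (Lindemann-Weierstrass). If `v` is `GoodV` and `y` is not `Bad QB expQ M D v`,
then `(l, i) ↦ v l * y ^ i`, `i ≤ D`, is `GoodV`, because in a relation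
`∑ c l i j v_l y ^ i E(γ_j) = 0` all `∑_{l, j} c l i j v_l E(γ_j)` vanish, so `c = 0`. The bounds for
one step depend only on the number `N` of the `v`s, which is multiplied by `D + 1` in every step.

* `DensStm`: one step as `rate_oneT` in `Pool/Agent/TH681/QC/RateT.lean` (`cubes_er`,
  `logLike_complex`; a cube of dimension `G * B` contains the grid with `G` groups of `B` directions),
  tuples as `rate_tuples` there (`count_cons`).
* `RandStm`: one step as `stepA` in `Pool/Agent/Y918/RP/Add.lean` with `Bad` in the place of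
  `¬ IndepOver W` and `GridStm` in the place of `cubeQ`; tuples by induction on `n` (or as
  `processF`); Baker: `li_QB_of_logs` in `Pool/Agent/Y918/RP/Gel.lean`. -/

/-- For all distinct algebraic `γ_1, …, γ_M` the numbers `e ^ γ_j ∏ y_i ^ (a_i)`, `0 ≤ a_i ≤ D`, are
linearly independent over the field of the algebraic numbers. -/
def Good (M D : ℕ) {k : ℕ} (y : Fin k → ℂ) : Prop :=
  ∀ γ : Fin M → ℂ, (∀ j, IsAlgebraic ℚ (γ j)) → Function.Injective γ →
    LinearIndependent (algebraicClosure ℚ ℂ)
      (fun p : Fin M × (Fin k → Fin (D + 1)) => Complex.exp (γ p.1) * ∏ i, y i ^ (p.2 i : ℕ))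

open Classical in
def DensStm : Prop :=
  ∀ (M D k : ℕ), ∃ C : ℕ, ∀ x : ℕ, 16 ≤ x →
    (((Fintype.piFinset fun _ : Fin k => Finset.Icc 1 x).filter fun n =>
      ¬ Good M D (fun i => (Real.log (n i) : ℂ))).card : ℝ) ≤
    C * Real.log (Real.log x) ^ C / Real.log x * (x : ℝ) ^ k

open Classical in
def RandStm : Prop :=
  ∀ (M D n : ℕ), ∃ (k₀ C : ℕ) (δ : ℝ), 0 < δ ∧ ∀ k ≥ k₀, ∀ l : Fin n → Fin k → ℂ,
    (∀ j i, IsAlgebraic ℚ (Complex.exp (l j i))) → (∀ j, LinearIndependent ℚ (l j)) →
    ∀ (ζ : Fin n → ℂ) (A : Finset ℚ), A.Nonempty →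
    (((Fintype.piFinset fun _ : Fin n => Fintype.piFinset fun _ : Fin k => A).filter fun a =>
      ¬ Good M D (fun j => ζ j + ∑ i, (a j i : ℂ) * l j i)).card : ℝ) ≤
    C * (A.card : ℝ) ^ ((n : ℝ) * k - δ * k)

/-! ### Piece 5: relations between `s` exponentials and logarithms

If `y` is `Good` for `M = (D + 1) ^ s` then there is no relation of degree at most `D` in each
variable with `e ^ α_1, …, e ^ α_s`, for any `ℚ`-linearly independent algebraic numbers `α_i`: the
exponents `∑ μ_i α_i`, `0 ≤ μ_i ≤ D`, are distinct. (Similar: `no_relation_exp` in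
`Pool/Agent/Y918/RP/Gel.lean`.) -/

def PolyStm : Prop :=
  ∀ (s D k : ℕ) (y : Fin k → ℂ), Good ((D + 1) ^ s) D y →
    ∀ α : Fin s → ℂ, (∀ i, IsAlgebraic ℚ (α i)) → LinearIndependent ℚ α →
    ∀ P : MvPolynomial (Fin s ⊕ Fin k) (algebraicClosure ℚ ℂ), (∀ i, P.degreeOf i ≤ D) →
      MvPolynomial.aeval (Sum.elim (fun i => Complex.exp (α i)) y) P = 0 → P = 0

end Pool.Agent.W2helper76.UE
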