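import Mathlib
import Pool.Agent.W2helper76.UE.Stm

/-!
# Uniform exponents: exponential fields

`κ` is a field, `C` an extension, `E : Γ → C` an exponential function whose values are linearly
independent over `κ`. `AV E V` is the algebraic closure in `C` of the field generated by the values of
`E` on `V`.
-/

set_option autoImplicit false

namespace Pool.Agent.W2helper76.UE

open Module Polynomial

variable {κ C Γ : Type} [Field κ] [Field C] [Algebra κ C] [AddCommGroup Γ]

/-- the exponential function on the additive group -/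
def ex (E : Multiplicative Γ →* C) (γ : Γ) : C := E (Multiplicative.ofAdd γ)

theorem ex_zero (E : Multiplicative Γ →* C) : ex E 0 = 1 := by
  unfold ex
  rw [ofAdd_zero, map_one]

theorem ex_add (E : Multiplicative Γ →* C) (a b : Γ) : ex E (a + b) = ex E a * ex E b := by
  unfold ex
  rw [ofAdd_add, map_mul]

theorem ex_ne (E : Multiplicative Γ →* C) (a : Γ) : ex E a ≠ 0 := by
  intro h
  have h1 : ex E (a + -a) = ex E a * ex E (-a) := ex_add E a (-a)
  rw [add_neg_cancel, ex_zero, h, zero_mul] at h1
  exact one_ne_zero h1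

theorem ex_sub (E : Multiplicative Γ →* C) (a b : Γ) : ex E (a - b) * ex E b = ex E a := by
  rw [← ex_add, sub_add_cancel]

/-- Extension of ring homomorphisms to algebraic extensions. -/
theorem exists_extend {R S M : Type*} [CommRing R] [CommRing S] [IsDomain S] [Field M]
    [IsAlgClosed M] (f : R →+* S) (g : R →+* M) (hf : Function.Injective f)
    (hg : Function.Injective g)
    (halg : ∀ s : S, ∃ p : Polynomial R, p ≠ 0 ∧ p.eval₂ f s = 0) :
    ∃ σ : S →+* M, ∀ r, σ (f r) = g r := by
  let _ := f.toAlgebra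
  let _ := g.toAlgebra
  have : IsDomain R := hf.isDomain f
  have : FaithfulSMul R S := (faithfulSMul_iff_algebraMap_injective R S).2 hf
  have : FaithfulSMul R M := (faithfulSMul_iff_algebraMap_injective R M).2 hg
  have : Algebra.IsAlgebraic R S :=
    ⟨fun s => by obtain ⟨p, h1, h2⟩ := halg s; exact ⟨p, h1, h2⟩⟩
  exact ⟨(IsAlgClosed.lift : S →ₐ[R] M).toRingHom,
    fun r => (IsAlgClosed.lift : S →ₐ[R] M).commutes r⟩

/-- Extension of an endomorphism of a subring to an algebraically closed field. -/
theorem exists_endo {R C : Type} [CommRing R] [Field C] [IsAlgClosed C] (f : R →+* C)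
    (hf : Function.Injective f) (θ : R →+* R) (hθ : Function.Injective θ) :
    ∃ σ : C →+* C, ∀ r, σ (f r) = f (θ r) := by
  let _ := f.toAlgebra
  have : IsDomain R := hf.isDomain f
  have : FaithfulSMul R C := (faithfulSMul_iff_algebraMap_injective R C).2 hf
  obtain ⟨s, hs⟩ := exists_isTranscendenceBasis R C
  have hs1 : AlgebraicIndependent R ((↑) : s → C) := hs.1
  have halg := hs.isAlgebraic
  set A₀ := Algebra.adjoin R (Set.range ((↑) : s → C)) with hA₀
  set e := hs1.aevalEquiv with he
  set g : A₀ →+* C := ((MvPolynomial.aeval (R := R) ((↑) : s → C)).toRingHom.comp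
    (MvPolynomial.map θ)).comp (e.symm : A₀ ≃ₐ[R] MvPolynomial s R).toRingEquiv.toRingHom with hg
  have hginj : Function.Injective g := by
    rw [hg]
    intro a b hab
    apply e.symm.injective
    apply MvPolynomial.map_injective θ hθ
    exact hs1 hab
  obtain ⟨σ, hσ⟩ := exists_extend (A₀.val : A₀ →ₐ[R] C).toRingHom g Subtype.val_injective hginj (by
    intro z
    obtain ⟨p, h1, h2⟩ := halg.isAlgebraic z
    exact ⟨p, h1, h2⟩)
  refine ⟨σ, fun r => ?_⟩
  have h1 := hσ (algebraMap R A₀ r)
  have h2 : (A₀.val : A₀ →ₐ[R] C).toRingHom (algebraMap R A₀ r) = f r := rfl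
  rw [h2] at h1
  rw [h1, hg]
  have h3 : e.symm (algebraMap R A₀ r) = algebraMap R (MvPolynomial s R) r := e.symm.commutes r
  simp only [RingHom.comp_apply]
  have h4 : (e.symm : A₀ ≃ₐ[R] MvPolynomial s R).toRingEquiv.toRingHom (algebraMap R A₀ r) =
    MvPolynomial.C r := h3
  rw [h4, MvPolynomial.map_C]
  have h5 : (MvPolynomial.aeval (R := R) ((↑) : s → C)).toRingHom (MvPolynomial.C (θ r)) =
    algebraMap R C (θ r) := (MvPolynomial.aeval (R := R) ((↑) : s → C)).commutes (θ r)
  rw [h5]
  rfl

/-- The homomorphism `γ ↦ χ(γ) E(γ)`. -/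
noncomputable def twist (E : Multiplicative Γ →* C) (χ : Multiplicative Γ →* κ) :
    Multiplicative Γ →* C where
  toFun γ := algebraMap κ C (χ γ) * E γ
  map_one' := by simp
  map_mul' a b := by
    rw [map_mul, map_mul, map_mul]
    ring

theorem char_ne (χ : Multiplicative Γ →* κ) (γ : Multiplicative Γ) : χ γ ≠ 0 := by
  intro h
  have h1 : χ γ * χ γ⁻¹ = 1 := by rw [← map_mul, mul_inv_cancel, map_one]
  rw [h, zero_mul] at h1
  exact zero_ne_one h1

/-- The group algebra embeds. -/
theorem lift_inj {E : Multiplicative Γ →* C} (h : LWI κ E) (χ : Multiplicative Γ →* κ) :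
    Function.Injective (AddMonoidAlgebra.lift κ C Γ (twist E χ)) := by
  rw [injective_iff_map_eq_zero]
  intro p hp
  rw [AddMonoidAlgebra.lift_apply', Finsupp.sum] at hp
  have h1 := (linearIndependent_iff'.1 h) p.coeff.support
    (fun γ => p.coeff γ * χ (Multiplicative.ofAdd γ)) (by
      rw [← hp]
      apply Finset.sum_congr rfl
      intro γ _
      rw [Algebra.smul_def, map_mul, mul_assoc]
      rfl)
  ext γ
  by_cases hγ : γ ∈ p.coeff.support
  · have h2 := h1 γ hγ
    rcases mul_eq_zero.1 h2 with h3 | h3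
    · exact h3
    · exact absurd h3 (char_ne χ _)
  · have := Finsupp.notMem_support_iff.1 hγ
    rw [this]
    rfl

theorem exists_sigma [IsAlgClosed C] {E : Multiplicative Γ →* C} (h : LWI κ E)
    (χ : Multiplicative Γ →* κ) :
    ∃ σ : C →ₐ[κ] C, ∀ γ : Γ, σ (ex E γ) = algebraMap κ C (χ (Multiplicative.ofAdd γ)) * ex E γ := by
  set f := AddMonoidAlgebra.lift κ C Γ (twist (κ := κ) E 1) with hf
  set θ : AddMonoidAlgebra κ Γ →ₐ[κ] AddMonoidAlgebra κ Γ :=
    AddMonoidAlgebra.lift κ (AddMonoidAlgebra κ Γ) Γ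
      { toFun := fun γ => AddMonoidAlgebra.single (Multiplicative.toAdd γ) (χ γ)
        map_one' := by
          rw [χ.map_one, toAdd_one]
          rfl
        map_mul' := fun a b => by
          rw [χ.map_mul, toAdd_mul, AddMonoidAlgebra.single_mul_single] } with hθ
  have hcomp : f.comp θ = AddMonoidAlgebra.lift κ C Γ (twist E χ) := by
    refine AddMonoidAlgebra.algHom_ext (fun γ => ?_) (by ext)
    rw [AlgHom.comp_apply, hθ, AddMonoidAlgebra.lift_single, AddMonoidAlgebra.lift_single, hf,
      one_smul, one_smul]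
    simp only [MonoidHom.coe_mk, OneHom.coe_mk, toAdd_ofAdd]
    rw [AddMonoidAlgebra.lift_single]
    simp only [twist, MonoidHom.coe_mk, OneHom.coe_mk, MonoidHom.one_apply]
    rw [Algebra.smul_def, map_one, one_mul]
  have hθinj : Function.Injective θ := by
    have h1 := lift_inj h χ
    rw [← hcomp] at h1
    exact Function.Injective.of_comp (f := f) h1
  obtain ⟨σ, hσ⟩ := exists_endo f.toRingHom (lift_inj h 1) θ.toRingHom hθinj
  have hk : ∀ c : κ, σ (algebraMap κ C c) = algebraMap κ C c := by
    intro c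
    have h1 := hσ (algebraMap κ (AddMonoidAlgebra κ Γ) c)
    have h2 : f.toRingHom (algebraMap κ (AddMonoidAlgebra κ Γ) c) = algebraMap κ C c :=
      f.commutes c
    have h3 : θ.toRingHom (algebraMap κ (AddMonoidAlgebra κ Γ) c) =
      algebraMap κ (AddMonoidAlgebra κ Γ) c := θ.commutes c
    rw [h3, h2] at h1
    exact h1
  refine ⟨{ σ with commutes' := hk }, fun γ => ?_⟩
  have h1 := hσ (AddMonoidAlgebra.single γ 1)
  have h2 : f.toRingHom (AddMonoidAlgebra.single γ 1) = ex E γ := by
    change f (AddMonoidAlgebra.single γ 1) = _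
    rw [hf, AddMonoidAlgebra.lift_single]
    simp [twist, ex]
  have h3 : f.toRingHom (θ.toRingHom (AddMonoidAlgebra.single γ 1)) =
      algebraMap κ C (χ (Multiplicative.ofAdd γ)) * ex E γ := by
    change (f.comp θ) (AddMonoidAlgebra.single γ 1) = _
    rw [hcomp, AddMonoidAlgebra.lift_single]
    simp [twist, ex]
  rw [h2, h3] at h1
  exact h1

/-- A character which is trivial on `P` and has no torsion values at finitely many given elements
outside `P`. -/
theorem exists_char [Module ℚ Γ] (ρ : Multiplicative ℚ →* κ)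
    (hρ : ∀ q : ℚ, q ≠ 0 → ρ (Multiplicative.ofAdd q) ≠ 1)
    (P : Submodule ℚ Γ) (Δ : Finset Γ) (hΔ : ∀ δ ∈ Δ, δ ∉ P) :
    ∃ χ : Multiplicative Γ →* κ, (∀ γ ∈ P, χ (Multiplicative.ofAdd γ) = 1) ∧
      ∀ δ ∈ Δ, ∀ n : ℕ, 0 < n → χ (Multiplicative.ofAdd δ) ^ n ≠ 1 := by
  classical
  obtain ⟨f, hf⟩ := Module.exists_dual_forall_apply_ne_zero (K := ℚ)
    (fun i : Δ => P.mkQ i.1) (fun i => by
      rw [Ne, Submodule.mkQ_apply, Submodule.Quotient.mk_eq_zero]
      exact hΔ i.1 i.2)
  set ψ : Γ →ₗ[ℚ] ℚ := f.comp P.mkQ with hψ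
  refine ⟨ρ.comp (AddMonoidHom.toMultiplicative ψ.toAddMonoidHom), ?_, ?_⟩
  · intro γ hγ
    have h0 : ψ γ = 0 := by
      rw [hψ, LinearMap.comp_apply, Submodule.mkQ_apply, (Submodule.Quotient.mk_eq_zero P).2 hγ,
        map_zero]
    have h1 : (ρ.comp (AddMonoidHom.toMultiplicative ψ.toAddMonoidHom)) (Multiplicative.ofAdd γ) =
        ρ (Multiplicative.ofAdd (ψ γ)) := rfl
    rw [h1, h0, ofAdd_zero, map_one]
  · intro δ hδ n hn h1
    have h2 : (ρ.comp (AddMonoidHom.toMultiplicative ψ.toAddMonoidHom)) (Multiplicative.ofAdd δ) =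
        ρ (Multiplicative.ofAdd (ψ δ)) := rfl
    rw [h2, ← map_pow, ← ofAdd_nsmul] at h1
    refine hρ (n • ψ δ) ?_ h1
    have h3 : ψ δ ≠ 0 := hf ⟨δ, hδ⟩
    rw [nsmul_eq_mul]
    exact mul_ne_zero (by exact_mod_cast hn.ne') h3

/-- The independence lemma: if `σ` shifts `x` by an element of `F` and multiplies the numbers
`e j` by distinct factors, then the `e j` are linearly independent over the polynomials in `x`. -/
theorem shift_indep {F C : Type} [Field F] [Field C] [Algebra F C] {J : Type} (e : J → C)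
    (he : ∀ j, e j ≠ 0) (σ : C →ₐ[F] C) (χ : J → F)
    (hχ : ∀ j, σ (e j) = algebraMap F C (χ j) * e j) {x : C}
    (hx : Transcendental F x) (b : F) (hσx : σ x = x + algebraMap F C b) (n : ℕ) :
    ∀ (G : Finset J), G.card = n → Set.InjOn χ G → ∀ c : J → F[X],
      ∑ j ∈ G, aeval x (c j) * e j = 0 → ∀ j ∈ G, c j = 0 := by
  classical
  have hinj : Function.Injective (aeval x : F[X] →ₐ[F] C) := transcendental_iff_injective.1 hx
  set τ : F[X] →+* F[X] := compRingHom (X + Polynomial.C b) with hτ
  have hτlc : ∀ p : F[X], (τ p).leadingCoeff = p.leadingCoeff := by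
    intro p
    rw [hτ, coe_compRingHom_apply, leadingCoeff_comp (by rw [natDegree_X_add_C]; exact one_ne_zero)]
    rw [leadingCoeff_X_add_C, one_pow, mul_one]
  have hτe : ∀ p : F[X], σ (aeval x p) = aeval x (τ p) := by
    intro p
    rw [hτ, coe_compRingHom_apply, aeval_comp, map_add, aeval_X, aeval_C,
      ← Polynomial.aeval_algHom_apply, hσx]
  induction n with
  | zero =>
    intro G hG _ c _ j hj
    rw [Finset.card_eq_zero] at hG
    rw [hG] at hj
    exact absurd hj (Finset.notMem_empty j)
  | succ n ih =>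
    intro G hG hGi c hc
    have hne : G.Nonempty := by
      rw [← Finset.card_pos]; omega
    obtain ⟨i, hi⟩ := hne
    have hcard : (G.erase i).card = n := by rw [Finset.card_erase_of_mem hi, hG]; rfl
    have hGi' : Set.InjOn χ (G.erase i) := hGi.mono (by
      intro a ha
      exact Finset.mem_of_mem_erase ha)
    -- the transformed relation
    have h1 : ∑ j ∈ G, aeval x (Polynomial.C (χ j) * τ (c j)) * e j = 0 := by
      have h2 := congrArg σ hc
      rw [map_zero, map_sum] at h2
      rw [← h2]
      apply Finset.sum_congr rfl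
      intro j _
      rw [map_mul, map_mul, aeval_C, hτe, hχ]
      ring
    set d : J → F[X] := fun j => Polynomial.C (χ i) * τ (c i) * c j -
      c i * (Polynomial.C (χ j) * τ (c j)) with hd
    have h3 : ∑ j ∈ G, aeval x (d j) * e j = 0 := by
      have e1 : ∀ j, aeval x (d j) * e j =
          aeval x (Polynomial.C (χ i) * τ (c i)) * (aeval x (c j) * e j) -
          aeval x (c i) * (aeval x (Polynomial.C (χ j) * τ (c j)) * e j) := by
        intro j
        rw [hd]
        simp only [map_sub, map_mul]
        ring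
      simp only [e1]
      rw [Finset.sum_sub_distrib, ← Finset.mul_sum, ← Finset.mul_sum, hc, h1, mul_zero, mul_zero,
        sub_zero]
    have hdi : d i = 0 := by rw [hd]; ring
    have h4 : ∀ j ∈ G.erase i, d j = 0 := by
      apply ih _ hcard hGi'
      rw [← Finset.add_sum_erase G _ hi, hdi, map_zero, zero_mul, zero_add] at h3
      exact h3
    have hor : ∀ j ∈ G.erase i, c i = 0 ∨ c j = 0 := by
      intro j hj
      by_contra hcon
      push Not at hcon
      obtain ⟨hci, hcj⟩ := hcon
      have h5 := h4 j hj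
      rw [hd] at h5
      simp only at h5
      have h6 := congrArg leadingCoeff (sub_eq_zero.1 h5)
      simp only [leadingCoeff_mul, leadingCoeff_C, hτlc] at h6
      have hci' : (c i).leadingCoeff ≠ 0 := by rwa [Ne, leadingCoeff_eq_zero]
      have hcj' : (c j).leadingCoeff ≠ 0 := by rwa [Ne, leadingCoeff_eq_zero]
      have h7 : χ i = χ j := by
        have h8 : ((c i).leadingCoeff * (c j).leadingCoeff) * χ i =
            ((c i).leadingCoeff * (c j).leadingCoeff) * χ j := by
          linear_combination h6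
        exact mul_left_cancel₀ (mul_ne_zero hci' hcj') h8
      have h9 := hGi hi (Finset.mem_of_mem_erase hj) h7
      exact Finset.ne_of_mem_erase hj h9.symm
    by_cases hci : c i = 0
    · intro j hj
      by_cases hji : j = i
      · rw [hji]; exact hci
      · refine ih _ hcard hGi' c ?_ j (Finset.mem_erase.2 ⟨hji, hj⟩)
        rw [← Finset.add_sum_erase G _ hi, hci, map_zero, zero_mul, zero_add] at hc
        exact hc
    · have h5 : ∀ j ∈ G.erase i, c j = 0 := fun j hj => (hor j hj).resolve_left hci
      exfalso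
      rw [← Finset.add_sum_erase G _ hi, Finset.sum_eq_zero (fun j hj => by
        rw [h5 j hj, map_zero, zero_mul]), add_zero] at hc
      rcases mul_eq_zero.1 hc with h6 | h6
      · apply hci
        apply hinj
        rw [h6, map_zero]
      · exact he i h6

/-- Eigenvectors with distinct eigenvalues are independent over the fixed elements. -/
theorem eigen_indep {C : Type} [Field C] {J : Type} (e : J → C)
    (he : ∀ j, e j ≠ 0) (σ : C →+* C) (χ : J → C)
    (hχ : ∀ j, σ (e j) = χ j * e j) (n : ℕ) :
    ∀ (G : Finset J), G.card = n → Set.InjOn χ G → ∀ c : J → C, (∀ j ∈ G, σ (c j) = c j) →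
      (∀ j ∈ G, σ (χ j) = χ j) →
      ∑ j ∈ G, c j * e j = 0 → ∀ j ∈ G, c j = 0 := by
  classical
  induction n with
  | zero =>
    intro G hG _ c _ _ _ j hj
    rw [Finset.card_eq_zero] at hG
    rw [hG] at hj
    exact absurd hj (Finset.notMem_empty j)
  | succ n ih =>
    intro G hG hGi c hcσ hχσ hc
    have hne : G.Nonempty := by
      rw [← Finset.card_pos]; omega
    obtain ⟨i, hi⟩ := hne
    have hcard : (G.erase i).card = n := by rw [Finset.card_erase_of_mem hi, hG]; rfl
    have hGi' : Set.InjOn χ (G.erase i) := hGi.mono (by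
      intro a ha
      exact Finset.mem_of_mem_erase ha)
    have h1 : ∑ j ∈ G, χ j * c j * e j = 0 := by
      have h2 := congrArg σ hc
      rw [map_zero, map_sum] at h2
      rw [← h2]
      apply Finset.sum_congr rfl
      intro j hj
      rw [map_mul, hcσ j hj, hχ]
      ring
    have h3 : ∑ j ∈ G.erase i, ((χ i - χ j) * c j) * e j = 0 := by
      have h4 : ∑ j ∈ G, ((χ i - χ j) * c j) * e j = 0 := by
        have e1 : ∀ j, ((χ i - χ j) * c j) * e j = χ i * (c j * e j) - χ j * c j * e j := by
          intro j; ring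
        simp only [e1]
        rw [Finset.sum_sub_distrib, ← Finset.mul_sum, hc, h1, mul_zero, sub_zero]
      rw [← Finset.add_sum_erase G _ hi, sub_self, zero_mul, zero_mul, zero_add] at h4
      exact h4
    have h5 := ih _ hcard hGi' (fun j => (χ i - χ j) * c j) (by
      intro j hj
      have hj' := Finset.mem_of_mem_erase hj
      rw [map_mul, map_sub, hχσ i hi, hχσ j hj', hcσ j hj']) (fun j hj =>
      hχσ j (Finset.mem_of_mem_erase hj)) h3
    have h6 : ∀ j ∈ G.erase i, c j = 0 := by
      intro j hj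
      rcases mul_eq_zero.1 (h5 j hj) with h7 | h7
      · exfalso
        have h8 := hGi hi (Finset.mem_of_mem_erase hj) (sub_eq_zero.1 h7)
        exact Finset.ne_of_mem_erase hj h8.symm
      · exact h7
    have h7 : c i = 0 := by
      rw [← Finset.add_sum_erase G _ hi, Finset.sum_eq_zero (fun j hj => by
        rw [h6 j hj, zero_mul]), add_zero] at hc
      rcases mul_eq_zero.1 hc with h8 | h8
      · exact h8
      · exact absurd h8 (he i)
    intro j hj
    by_cases hji : j = i
    · rw [hji]; exact h7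
    · exact h6 j (Finset.mem_erase.2 ⟨hji, hj⟩)

end Pool.Agent.W2helper76.UE
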