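import Mathlib
import Pool.Agent.W2helper76.UE.Basic

/-!
# Uniform exponents: the fields `AV V`
-/

set_option autoImplicit false
set_option linter.unusedSectionVars false

namespace Pool.Agent.W2helper76.UE

open Module Polynomial

variable {κ C Γ : Type} [Field κ] [Field C] [Algebra κ C] [AddCommGroup Γ] [Module ℚ Γ]

/-- the field generated by the values of `E` on `V` -/
noncomputable def KV (κ : Type) {C Γ : Type} [Field κ] [Field C] [Algebra κ C] [AddCommGroup Γ]
    [Module ℚ Γ] (E : Multiplicative Γ →* C) (V : Submodule ℚ Γ) : IntermediateField κ C :=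
  IntermediateField.adjoin κ (ex E '' (V : Set Γ))

/-- its algebraic closure in `C` -/
noncomputable def AV (κ : Type) {C Γ : Type} [Field κ] [Field C] [Algebra κ C] [AddCommGroup Γ]
    [Module ℚ Γ] (E : Multiplicative Γ →* C) (V : Submodule ℚ Γ) : IntermediateField κ C :=
  (algebraicClosure (KV κ E V) C).restrictScalars κ

variable {E : Multiplicative Γ →* C}

theorem mem_AV {V : Submodule ℚ Γ} {x : C} : x ∈ AV κ E V ↔ IsAlgebraic (KV κ E V) x := by
  unfold AV
  rw [IntermediateField.mem_restrictScalars, mem_algebraicClosure_iff]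

theorem KV_le_AV (V : Submodule ℚ Γ) : KV κ E V ≤ AV κ E V := by
  intro x hx
  rw [mem_AV]
  exact isAlgebraic_algebraMap (⟨x, hx⟩ : KV κ E V)

theorem ex_mem_KV {V : Submodule ℚ Γ} {γ : Γ} (h : γ ∈ V) : ex E γ ∈ KV κ E V :=
  IntermediateField.subset_adjoin _ _ ⟨γ, h, rfl⟩

theorem ex_mem_AV {V : Submodule ℚ Γ} {γ : Γ} (h : γ ∈ V) : ex E γ ∈ AV κ E V :=
  KV_le_AV V (ex_mem_KV h)

/-- Polynomials with coefficients in a subfield. -/
theorem exists_map {F : IntermediateField κ C} (p : C[X]) (hp : ∀ i, p.coeff i ∈ F) :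
    ∃ q : F[X], q.map (algebraMap F C) = p := by
  have h1 : p ∈ Polynomial.lifts (algebraMap F C) := by
    rw [Polynomial.lifts_iff_coeff_lifts]
    intro i
    exact ⟨⟨p.coeff i, hp i⟩, rfl⟩
  exact (Polynomial.mem_lifts _).1 h1

theorem mem_of_poly {V : Submodule ℚ Γ} {x : C} (p : C[X]) (h0 : p ≠ 0)
    (hp : ∀ i, p.coeff i ∈ AV κ E V) (hx : p.eval x = 0) : x ∈ AV κ E V := by
  rw [mem_AV]
  have h1 : IsAlgebraic (algebraicClosure (KV κ E V) C) x := by
    have h2 : ∃ q : (algebraicClosure (KV κ E V) C)[X],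
        q.map (algebraMap (algebraicClosure (KV κ E V) C) C) = p := by
      have h1 : p ∈ Polynomial.lifts (algebraMap (algebraicClosure (KV κ E V) C) C) := by
        rw [Polynomial.lifts_iff_coeff_lifts]
        intro i
        exact ⟨⟨p.coeff i, hp i⟩, rfl⟩
      exact (Polynomial.mem_lifts _).1 h1
    obtain ⟨q, rfl⟩ := h2
    refine ⟨q, ?_, ?_⟩
    · rintro rfl
      exact h0 (Polynomial.map_zero _)
    · rw [← hx, Polynomial.eval_map]
      rfl
  have : Algebra.IsAlgebraic (KV κ E V) (algebraicClosure (KV κ E V) C) :=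
    algebraicClosure.isAlgebraic (KV κ E V) C
  exact h1.restrictScalars (KV κ E V)

theorem exists_poly {V : Submodule ℚ Γ} {x : C} (hx : x ∈ AV κ E V) :
    ∃ p : C[X], p ≠ 0 ∧ (∀ i, p.coeff i ∈ KV κ E V) ∧ p.eval x = 0 := by
  rw [mem_AV] at hx
  obtain ⟨q, hq0, hq⟩ := hx
  refine ⟨q.map (algebraMap (KV κ E V) C), ?_, ?_, ?_⟩
  · rw [Ne, Polynomial.map_eq_zero_iff (algebraMap (KV κ E V) C).injective]
    exact hq0
  · intro i
    rw [Polynomial.coeff_map]
    exact (q.coeff i).2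
  · rw [Polynomial.eval_map]
    exact hq

theorem KV_mono {V W : Submodule ℚ Γ} (h : V ≤ W) : KV κ E V ≤ KV κ E W :=
  IntermediateField.adjoin.mono _ _ _ (Set.image_mono h)

theorem AV_mono {V W : Submodule ℚ Γ} (h : V ≤ W) : AV κ E V ≤ AV κ E W := by
  intro x hx
  obtain ⟨p, h1, h2, h3⟩ := exists_poly hx
  exact mem_of_poly p h1 (fun i => KV_le_AV W (KV_mono h (h2 i))) h3

/-- An endomorphism which scales the values of `E` -/
def Scales (E : Multiplicative Γ →* C) (σ : C →ₐ[κ] C) (χ : Multiplicative Γ →* κ) : Prop :=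
  ∀ γ : Γ, σ (ex E γ) = algebraMap κ C (χ (Multiplicative.ofAdd γ)) * ex E γ

theorem Scales.pow {σ : C →ₐ[κ] C} {χ : Multiplicative Γ →* κ} (h : Scales E σ χ) (n : ℕ) :
    Scales E (σ ^ n) (χ ^ n) := by
  induction n with
  | zero =>
    intro γ
    rw [pow_zero, pow_zero]
    simp
  | succ n ih =>
    intro γ
    rw [pow_succ, AlgHom.mul_apply, h, map_mul, ih, AlgHom.commutes, pow_succ, MonoidHom.mul_apply,
      map_mul]
    ring

theorem Scales.map_KV {σ : C →ₐ[κ] C} {χ : Multiplicative Γ →* κ} (h : Scales E σ χ)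
    (V : Submodule ℚ Γ) {y : C} (hy : y ∈ KV κ E V) : σ y ∈ KV κ E V := by
  unfold KV at hy
  induction hy using IntermediateField.adjoin_induction with
  | mem y hy =>
    obtain ⟨γ, hγ, rfl⟩ := hy
    rw [h]
    exact (KV κ E V).mul_mem ((KV κ E V).algebraMap_mem _) (ex_mem_KV hγ)
  | algebraMap c =>
    rw [AlgHom.commutes]
    exact (KV κ E V).algebraMap_mem c
  | add y z _ _ h1 h2 => rw [map_add]; exact (KV κ E V).add_mem h1 h2
  | inv y _ h1 => rw [map_inv₀]; exact (KV κ E V).inv_mem h1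
  | mul y z _ _ h1 h2 => rw [map_mul]; exact (KV κ E V).mul_mem h1 h2

theorem Scales.map_AV {σ : C →ₐ[κ] C} {χ : Multiplicative Γ →* κ} (h : Scales E σ χ)
    (V : Submodule ℚ Γ) {y : C} (hy : y ∈ AV κ E V) : σ y ∈ AV κ E V := by
  obtain ⟨p, h1, h2, h3⟩ := exists_poly hy
  refine mem_of_poly (p.map σ.toRingHom) ?_ ?_ ?_
  · rw [Ne, Polynomial.map_eq_zero_iff σ.toRingHom.injective]
    exact h1
  · intro i
    rw [Polynomial.coeff_map]
    exact KV_le_AV V (h.map_KV V (h2 i))
  · rw [Polynomial.eval_map]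
    have h4 : (p.eval₂ σ.toRingHom (σ.toRingHom y)) = σ.toRingHom (p.eval y) :=
      eval₂_at_apply σ.toRingHom y
    have h5 : σ y = σ.toRingHom y := rfl
    rw [h5, h4, h3, map_zero]

theorem Scales.fix_KV {σ : C →ₐ[κ] C} {χ : Multiplicative Γ →* κ} (h : Scales E σ χ)
    {V : Submodule ℚ Γ} (hV : ∀ γ ∈ V, χ (Multiplicative.ofAdd γ) = 1) {y : C}
    (hy : y ∈ KV κ E V) : σ y = y := by
  unfold KV at hy
  induction hy using IntermediateField.adjoin_induction with
  | mem y hy =>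
    obtain ⟨γ, hγ, rfl⟩ := hy
    rw [h, hV γ hγ, map_one, one_mul]
  | algebraMap c => rw [AlgHom.commutes]
  | add y z _ _ h1 h2 => rw [map_add, h1, h2]
  | inv y _ h1 => rw [map_inv₀, h1]
  | mul y z _ _ h1 h2 => rw [map_mul, h1, h2]

/-- Pigeonhole: some power of an endomorphism which fixes the coefficients fixes the root. -/
theorem pow_fix (σ : C →ₐ[κ] C) (f : C[X]) (hf0 : f ≠ 0) (hf : ∀ i, σ (f.coeff i) = f.coeff i)
    {x : C} (hx : f.eval x = 0) : ∃ n : ℕ, 0 < n ∧ (σ ^ n) x = x := by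
  classical
  have hroot : ∀ n : ℕ, (σ ^ n) x ∈ f.roots.toFinset := by
    intro n
    rw [Multiset.mem_toFinset, mem_roots hf0, IsRoot.def]
    induction n with
    | zero =>
      rw [pow_zero]
      exact hx
    | succ n ih =>
      rw [pow_succ', AlgHom.mul_apply]
      have h1 : (f.map σ.toRingHom).eval (σ ((σ ^ n) x)) = 0 := by
        have h2 : (f.map σ.toRingHom).eval (σ.toRingHom ((σ ^ n) x)) =
            σ.toRingHom (f.eval ((σ ^ n) x)) :=
          (Polynomial.eval_map σ.toRingHom _).trans (eval₂_at_apply σ.toRingHom _)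
        exact h2.trans (by rw [ih, map_zero])
      have h3 : f.map σ.toRingHom = f := by
        ext i
        rw [Polynomial.coeff_map]
        exact hf i
      rwa [h3] at h1
  have hfin : ∃ a b : ℕ, a ≠ b ∧ (σ ^ a) x = (σ ^ b) x := by
    obtain ⟨a, b, hab, he⟩ := Finite.exists_ne_map_eq_of_infinite
      (fun n : ℕ => (⟨(σ ^ n) x, hroot n⟩ : f.roots.toFinset))
    exact ⟨a, b, hab, congrArg Subtype.val he⟩
  obtain ⟨a, b, hab, he⟩ := hfin
  have key : ∀ a b : ℕ, a < b → (σ ^ a) x = (σ ^ b) x → ∃ n : ℕ, 0 < n ∧ (σ ^ n) x = x := by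
    intro a b hab he
    refine ⟨b - a, by omega, ?_⟩
    have h4 : (σ ^ a) ((σ ^ (b - a)) x) = (σ ^ a) x := by
      rw [← AlgHom.mul_apply, ← pow_add, Nat.add_sub_cancel' hab.le, he]
    exact (σ ^ a).toRingHom.injective h4
  rcases lt_or_gt_of_ne hab with h5 | h5
  · exact key a b h5 he
  · exact key b a h5 he.symm

theorem pow_fix_of_dvd {σ : C →ₐ[κ] C} {x : C} {m n : ℕ} (h : (σ ^ m) x = x) (hmn : m ∣ n) :
    (σ ^ n) x = x := by
  obtain ⟨k, rfl⟩ := hmn
  rw [pow_mul]
  induction k with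
  | zero => rw [pow_zero]; rfl
  | succ k ih => rw [pow_succ, AlgHom.mul_apply, h, ih]

theorem Scales.fix_AV {σ : C →ₐ[κ] C} {χ : Multiplicative Γ →* κ} (h : Scales E σ χ)
    {V : Submodule ℚ Γ} (hV : ∀ γ ∈ V, χ (Multiplicative.ofAdd γ) = 1) {y : C}
    (hy : y ∈ AV κ E V) : ∃ n : ℕ, 0 < n ∧ (σ ^ n) y = y := by
  obtain ⟨p, h1, h2, h3⟩ := exists_poly hy
  exact pow_fix σ p h1 (fun i => h.fix_KV hV (h2 i)) h3

theorem Scales.fix_AV_finset {σ : C →ₐ[κ] C} {χ : Multiplicative Γ →* κ} (h : Scales E σ χ)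
    {V : Submodule ℚ Γ} (hV : ∀ γ ∈ V, χ (Multiplicative.ofAdd γ) = 1) {ι : Type} (s : Finset ι)
    (y : ι → C) (hy : ∀ i ∈ s, y i ∈ AV κ E V) : ∃ n : ℕ, 0 < n ∧ ∀ i ∈ s, (σ ^ n) (y i) = y i := by
  classical
  have h1 : ∀ i, ∃ n : ℕ, 0 < n ∧ (i ∈ s → (σ ^ n) (y i) = y i) := by
    intro i
    by_cases hi : i ∈ s
    · obtain ⟨n, h2, h3⟩ := h.fix_AV hV (hy i hi)
      exact ⟨n, h2, fun _ => h3⟩
    · exact ⟨1, one_pos, fun h => absurd h hi⟩
  choose n hn0 hn using h1
  refine ⟨∏ i ∈ s, n i, Finset.prod_pos fun i _ => hn0 i, fun i hi => ?_⟩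
  exact pow_fix_of_dvd (hn i hi) (Finset.dvd_prod_of_mem _ hi)

open scoped IntermediateField.algebraAdjoinAdjoin in
/-- A number in `AV V` satisfies a relation with finitely many values of `E` on `V`. -/
theorem exists_rel {V : Submodule ℚ Γ} {x : C} (hx : x ∈ AV κ E V) :
    ∃ (G : Finset Γ) (a : Γ → κ[X]), (∀ γ ∈ G, γ ∈ V) ∧ (∃ γ ∈ G, a γ ≠ 0) ∧
      ∑ γ ∈ G, aeval x (a γ) * ex E γ = 0 := by
  classical
  rw [mem_AV] at hx
  set s : Set C := ex E '' (V : Set Γ) with hs
  have hx' : IsAlgebraic (Algebra.adjoin κ s) x :=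
    (IsFractionRing.isAlgebraic_iff (Algebra.adjoin κ s)
      (IntermediateField.adjoin κ s) C).2 hx
  obtain ⟨p, hp0, hp⟩ := hx'
  have hcl : ∀ y ∈ Algebra.adjoin κ s, y ∈ Submodule.span κ s := by
    intro y hy
    rw [← Subalgebra.mem_toSubmodule, Algebra.adjoin_eq_span] at hy
    refine Submodule.span_mono ?_ hy
    intro z hz
    have : s = ((Submonoid.map E (AddSubgroup.toSubgroup V.toAddSubgroup).toSubmonoid :
      Submonoid C) : Set C) := by
      ext z
      constructor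
      · rintro ⟨γ, hγ, rfl⟩
        exact ⟨Multiplicative.ofAdd γ, hγ, rfl⟩
      · rintro ⟨γ, hγ, rfl⟩
        exact ⟨Multiplicative.toAdd γ, hγ, rfl⟩
    rw [this] at hz ⊢
    rwa [Submonoid.closure_eq] at hz
  have hco : ∀ i : ℕ, ∃ l : Γ →₀ κ, l ∈ Finsupp.supported κ κ (V : Set Γ) ∧
      Finsupp.linearCombination κ (ex E) l = ((p.coeff i : Algebra.adjoin κ s) : C) := by
    intro i
    have h1 : ((p.coeff i : Algebra.adjoin κ s) : C) ∈ Submodule.span κ (ex E '' (V : Set Γ)) :=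
      hcl _ (p.coeff i).2
    rw [Finsupp.mem_span_image_iff_linearCombination] at h1
    exact h1
  choose l hl1 hl2 using hco
  set G : Finset Γ := (Finset.range (p.natDegree + 1)).biUnion fun i => (l i).support with hG
  refine ⟨G, fun γ => ∑ i ∈ Finset.range (p.natDegree + 1), monomial i (l i γ), ?_, ?_, ?_⟩
  · intro γ hγ
    rw [hG, Finset.mem_biUnion] at hγ
    obtain ⟨i, _, hi⟩ := hγ
    have h1 := hl1 i
    rw [Finsupp.mem_supported] at h1
    exact h1 hi
  · have h1 : p.coeff p.natDegree ≠ 0 := by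
      rw [coeff_natDegree, Ne, leadingCoeff_eq_zero]
      exact hp0
    have h2 : l p.natDegree ≠ 0 := by
      intro h
      apply h1
      apply Subtype.ext
      rw [← hl2, h, map_zero]
      rfl
    obtain ⟨γ, hγ⟩ := Finsupp.support_nonempty_iff.2 h2
    refine ⟨γ, ?_, ?_⟩
    · rw [hG, Finset.mem_biUnion]
      exact ⟨p.natDegree, Finset.mem_range.2 (Nat.lt_succ_self _), hγ⟩
    · intro h
      have h3 := congrArg (fun q => q.coeff p.natDegree) h
      simp only [finsetSum_coeff, coeff_zero] at h3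
      rw [Finset.sum_eq_single p.natDegree] at h3
      · rw [coeff_monomial, if_pos rfl] at h3
        exact (Finsupp.mem_support_iff.1 hγ) h3
      · intro j _ hj
        rw [coeff_monomial, if_neg hj]
      · intro h
        exact absurd (Finset.mem_range.2 (Nat.lt_succ_self _)) h
  · have h1 : aeval x p = ∑ i ∈ Finset.range (p.natDegree + 1),
        ((p.coeff i : Algebra.adjoin κ s) : C) * x ^ i := by
      rw [aeval_eq_sum_range]
      rfl
    rw [h1] at hp
    rw [← hp]
    have h2 : ∀ i ∈ Finset.range (p.natDegree + 1), ((p.coeff i : Algebra.adjoin κ s) : C) * x ^ i =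
        ∑ γ ∈ G, algebraMap κ C (l i γ) * x ^ i * ex E γ := by
      intro i hi
      rw [← hl2, Finsupp.linearCombination_apply, Finsupp.sum, Finset.sum_mul]
      have hsub : (l i).support ⊆ G := by
        intro γ hγ
        rw [hG, Finset.mem_biUnion]
        exact ⟨i, hi, hγ⟩
      rw [← Finset.sum_subset hsub]
      · apply Finset.sum_congr rfl
        intro γ _
        rw [Algebra.smul_def]
        ring
      · intro γ _ hγ
        rw [Finsupp.notMem_support_iff.1 hγ, map_zero, zero_mul, zero_mul]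
    rw [Finset.sum_congr rfl h2, Finset.sum_comm]
    apply Finset.sum_congr rfl
    intro γ _
    rw [map_sum, Finset.sum_mul]
    apply Finset.sum_congr rfl
    intro i _
    rw [aeval_monomial]

end Pool.Agent.W2helper76.UE
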