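import Mathlib
import Pool.Agent.W2helper76.UE.AV

/-!
# Uniform exponents: the key lemma
-/

set_option autoImplicit false
set_option linter.unusedSectionVars false

namespace Pool.Agent.W2helper76.UE

open Module Polynomial

variable {κ C Γ : Type} [Field κ] [Field C] [Algebra κ C] [AddCommGroup Γ] [Module ℚ Γ]

/-- the elements of `A` fixed by `τ` -/
noncomputable def fixF (A : IntermediateField κ C) (τ : C →ₐ[κ] C) : IntermediateField κ C where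
  carrier := {z | z ∈ A ∧ τ z = z}
  mul_mem' := by
    rintro a b ⟨h1, h2⟩ ⟨h3, h4⟩
    exact ⟨A.mul_mem h1 h3, by rw [map_mul, h2, h4]⟩
  one_mem' := ⟨A.one_mem, map_one τ⟩
  add_mem' := by
    rintro a b ⟨h1, h2⟩ ⟨h3, h4⟩
    exact ⟨A.add_mem h1 h3, by rw [map_add, h2, h4]⟩
  zero_mem' := ⟨A.zero_mem, map_zero τ⟩
  algebraMap_mem' c := ⟨A.algebraMap_mem c, τ.commutes c⟩
  inv_mem' := by
    rintro a ⟨h1, h2⟩
    exact ⟨A.inv_mem h1, by rw [map_inv₀, h2]⟩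

theorem shift_pow (τ : C →ₐ[κ] C) (y : C) (n : ℕ) :
    (τ ^ n) y = y + ∑ i ∈ Finset.range n, (τ ^ i) (τ y - y) := by
  induction n with
  | zero => simp
  | succ n ih =>
    rw [Finset.sum_range_succ, ← add_assoc, ← ih, map_sub]
    have : (τ ^ (n + 1)) y = (τ ^ n) (τ y) := by rw [pow_succ, AlgHom.mul_apply]
    rw [this]
    ring

/-- The key lemma. -/
theorem keyK {E : Multiplicative Γ →* C} (h : LWI κ E) (Z Y : Submodule ℚ Γ) (y : C)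
    (hy : y ∈ AV κ E Y)
    (H : ∀ Δ : Finset Γ, (∀ δ ∈ Δ, δ ∈ Y ∧ δ ∉ Z) → ∃ (χ : Multiplicative Γ →* κ) (τ : C →ₐ[κ] C),
      Scales E τ χ ∧ (∀ γ ∈ Z, χ (Multiplicative.ofAdd γ) = 1) ∧
      (∀ δ ∈ Δ, ∀ n : ℕ, 0 < n → χ (Multiplicative.ofAdd δ) ^ n ≠ 1) ∧ τ y - y ∈ AV κ E Z) :
    y ∈ AV κ E Z := by
  classical
  by_contra hcon
  obtain ⟨G, a, hG, ⟨γ₁, hγ₁, ha⟩, hrel⟩ := exists_rel hy
  -- representatives
  set rep : Γ → Γ := fun γ => Function.surjInv Z.mkQ_surjective (Z.mkQ γ) with hrep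
  have hrep1 : ∀ γ, Z.mkQ (rep γ) = Z.mkQ γ := fun γ =>
    Function.surjInv_eq Z.mkQ_surjective (Z.mkQ γ)
  have hrep2 : ∀ γ, γ - rep γ ∈ Z := by
    intro γ
    have h1 := (hrep1 γ).symm
    rw [Submodule.mkQ_apply, Submodule.mkQ_apply, Submodule.Quotient.eq] at h1
    exact h1
  have hrep3 : ∀ γ γ', γ - γ' ∈ Z → rep γ = rep γ' := by
    intro γ γ' h1
    have h2 : Z.mkQ γ = Z.mkQ γ' := by
      rw [Submodule.mkQ_apply, Submodule.mkQ_apply, Submodule.Quotient.eq]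
      exact h1
    simp only [hrep, h2]
  set Δ : Finset Γ := ((G ×ˢ G).filter fun p => p.1 - p.2 ∉ Z).image fun p => p.1 - p.2 with hΔ
  obtain ⟨χ, τ, hs, hχZ, hχΔ, hδ⟩ := H Δ (by
    intro δ hδ
    rw [hΔ, Finset.mem_image] at hδ
    obtain ⟨p, hp, rfl⟩ := hδ
    rw [Finset.mem_filter, Finset.mem_product] at hp
    exact ⟨Y.sub_mem (hG _ hp.1.1) (hG _ hp.1.2), hp.2⟩)
  obtain ⟨n, hn0, hn⟩ := hs.fix_AV hχZ hδ
  set τ' := τ ^ n with hτ'
  have hs' : Scales E τ' (χ ^ n) := hs.pow n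
  have hχZ' : ∀ γ ∈ Z, (χ ^ n) (Multiplicative.ofAdd γ) = 1 := by
    intro γ hγ
    rw [MonoidHom.pow_apply, hχZ γ hγ, one_pow]
  set δ := τ y - y with hδdef
  set δ' := ∑ i ∈ Finset.range n, (τ ^ i) δ with hδ'
  have hτy : τ' y = y + δ' := shift_pow τ y n
  have hδ'A : δ' ∈ AV κ E Z := by
    refine (AV κ E Z).sum_mem fun i _ => ?_
    exact (hs.pow i).map_AV Z hδ
  have hδ'f : τ' δ' = δ' := by
    rw [hδ', map_sum]
    apply Finset.sum_congr rfl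
    intro i _
    have h1 : τ' ((τ ^ i) δ) = (τ ^ i) (τ' δ) := by
      rw [hτ', ← AlgHom.mul_apply, ← AlgHom.mul_apply, ← pow_add, ← pow_add, add_comm]
    rw [h1, hn]
  set F := fixF (AV κ E Z) τ' with hF
  have hKF : KV κ E Z ≤ F := fun z hz => ⟨KV_le_AV Z hz, hs'.fix_KV hχZ' hz⟩
  let τF : C →ₐ[F] C := { τ'.toRingHom with commutes' := fun z => z.2.2 }
  have hτF : ∀ z, τF z = τ' z := fun z => rfl
  have htr : Transcendental F y := by
    intro hal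
    apply hcon
    obtain ⟨q, hq0, hq⟩ := hal
    refine mem_of_poly (q.map (algebraMap F C)) ?_ ?_ ?_
    · rw [Ne, Polynomial.map_eq_zero_iff (algebraMap F C).injective]
      exact hq0
    · intro i
      rw [coeff_map]
      exact (q.coeff i).2.1
    · rw [eval_map]
      exact hq
  -- the coefficients
  set c : Γ → F[X] := fun q => ∑ γ ∈ G.filter (fun γ => rep γ = q),
    Polynomial.C (⟨ex E (γ - rep γ), hKF (ex_mem_KV (hrep2 γ))⟩ : F) *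
      (a γ).map (algebraMap κ F) with hc
  have hsum : ∑ q ∈ G.image rep, aeval y (c q) * ex E q = 0 := by
    rw [← hrel, ← Finset.sum_fiberwise_of_maps_to (s := G) (t := G.image rep) (g := rep)
      (fun γ hγ => Finset.mem_image_of_mem rep hγ)]
    apply Finset.sum_congr rfl
    intro q _
    rw [hc]
    simp only [map_sum, Finset.sum_mul]
    apply Finset.sum_congr rfl
    intro γ hγ
    rw [Finset.mem_filter] at hγ
    have e1 : aeval y ((a γ).map (algebraMap κ F)) = aeval y (a γ) := aeval_map_algebraMap F y (a γ)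
    rw [map_mul, aeval_C, e1]
    have e2 : algebraMap F C (⟨ex E (γ - rep γ), hKF (ex_mem_KV (hrep2 γ))⟩ : F) =
      ex E (γ - rep γ) := rfl
    rw [e2, ← hγ.2]
    have e3 := ex_sub E γ (rep γ)
    rw [← e3]
    ring
  have h5 := shift_indep (F := F) (ex E) (ex_ne E) τF
    (fun γ => algebraMap κ F ((χ ^ n) (Multiplicative.ofAdd γ))) (fun γ => by
      rw [hτF, hs']
      rfl) htr ⟨δ', hδ'A, hδ'f⟩ (by rw [hτF, hτy]; rfl) _ (G.image rep) rfl (by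
      intro q hq q' hq' hqq
      rw [Finset.coe_image, Set.mem_image] at hq hq'
      obtain ⟨γ, hγ, rfl⟩ := hq
      obtain ⟨γ', hγ', rfl⟩ := hq'
      have h6 : (χ ^ n) (Multiplicative.ofAdd (rep γ)) = (χ ^ n) (Multiplicative.ofAdd (rep γ')) :=
        (algebraMap κ F).injective hqq
      have h7 : ∀ γ, (χ ^ n) (Multiplicative.ofAdd γ) = (χ ^ n) (Multiplicative.ofAdd (rep γ)) := by
        intro γ
        have : (χ ^ n) (Multiplicative.ofAdd (γ - rep γ + rep γ)) =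
            (χ ^ n) (Multiplicative.ofAdd (rep γ)) := by
          rw [ofAdd_add, map_mul, hχZ' _ (hrep2 γ), one_mul]
        rwa [sub_add_cancel] at this
      apply hrep3
      by_contra hne
      have hmem : γ - γ' ∈ Δ := by
        rw [hΔ]
        exact Finset.mem_image.2 ⟨(γ, γ'), Finset.mem_filter.2
          ⟨Finset.mem_product.2 ⟨hγ, hγ'⟩, hne⟩, rfl⟩
      apply hχΔ _ hmem n hn0
      have h8 : (χ ^ n) (Multiplicative.ofAdd γ) = (χ ^ n) (Multiplicative.ofAdd γ') := by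
        rw [h7 γ, h7 γ', h6]
      rw [ofAdd_sub, ← MonoidHom.pow_apply]
      have h9 : (χ ^ n) (Multiplicative.ofAdd γ / Multiplicative.ofAdd γ') *
          (χ ^ n) (Multiplicative.ofAdd γ') = (χ ^ n) (Multiplicative.ofAdd γ) := by
        rw [← map_mul, div_mul_cancel]
      rw [h8] at h9
      exact mul_right_cancel₀ (char_ne (χ ^ n) _) (h9.trans (one_mul _).symm)) c hsum
  have h6 := h5 (rep γ₁) (Finset.mem_image_of_mem rep hγ₁)
  apply ha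
  ext i
  rw [coeff_zero]
  have h7 := congrArg (fun q => algebraMap F C (q.coeff i)) h6
  simp only [hc, finsetSum_coeff, map_sum, coeff_zero, map_zero, coeff_C_mul, map_mul, coeff_map] at h7
  have hli : LinearIndependent κ (fun γ : Γ => ex E (γ - rep γ₁)) :=
    h.comp (fun γ => γ - rep γ₁) (sub_left_injective)
  refine (linearIndependent_iff'.1 hli) (G.filter fun γ => rep γ = rep γ₁)
    (fun γ => (a γ).coeff i) ?_ γ₁ (Finset.mem_filter.2 ⟨hγ₁, rfl⟩)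
  rw [← h7]
  apply Finset.sum_congr rfl
  intro γ hγ
  rw [Finset.mem_filter] at hγ
  rw [Algebra.smul_def, mul_comm, ← hγ.2]
  rfl

variable [IsAlgClosed C] {E : Multiplicative Γ →* C}

/-- Existence of scaling endomorphisms. -/
theorem exists_scale (h : LWI κ E) (ρ : Multiplicative ℚ →* κ)
    (hρ : ∀ q : ℚ, q ≠ 0 → ρ (Multiplicative.ofAdd q) ≠ 1) (P : Submodule ℚ Γ) (Δ : Finset Γ)
    (hΔ : ∀ δ ∈ Δ, δ ∉ P) : ∃ (χ : Multiplicative Γ →* κ) (σ : C →ₐ[κ] C), Scales E σ χ ∧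
      (∀ γ ∈ P, χ (Multiplicative.ofAdd γ) = 1) ∧
      ∀ δ ∈ Δ, ∀ n : ℕ, 0 < n → χ (Multiplicative.ofAdd δ) ^ n ≠ 1 := by
  obtain ⟨χ, h1, h2⟩ := exists_char ρ hρ P Δ hΔ
  obtain ⟨σ, hσ⟩ := exists_sigma h χ
  exact ⟨χ, σ, hσ, h1, h2⟩

theorem pow_char {χ : Multiplicative Γ →* κ} {δ : Γ}
    (h : ∀ n : ℕ, 0 < n → χ (Multiplicative.ofAdd δ) ^ n ≠ 1) {k : ℕ} (hk : 0 < k) :
    ∀ n : ℕ, 0 < n → (χ ^ k) (Multiplicative.ofAdd δ) ^ n ≠ 1 := by
  intro n hn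
  rw [MonoidHom.pow_apply, ← pow_mul]
  exact h _ (Nat.mul_pos hk hn)

/-- Intersections. -/
theorem AV_inter (h : LWI κ E) (ρ : Multiplicative ℚ →* κ)
    (hρ : ∀ q : ℚ, q ≠ 0 → ρ (Multiplicative.ofAdd q) ≠ 1) {X Y : Submodule ℚ Γ} {y : C}
    (hx : y ∈ AV κ E X) (hy : y ∈ AV κ E Y) : y ∈ AV κ E (X ⊓ Y) := by
  refine keyK h (X ⊓ Y) Y y hy fun Δ hΔ => ?_
  obtain ⟨χ, σ, hs, h1, h2⟩ := exists_scale h ρ hρ X Δ (fun δ hδ hX =>
    (hΔ δ hδ).2 (Submodule.mem_inf.2 ⟨hX, (hΔ δ hδ).1⟩))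
  obtain ⟨n, hn0, hn⟩ := hs.fix_AV h1 hx
  refine ⟨χ ^ n, σ ^ n, hs.pow n, fun γ hγ => ?_, fun δ hδ => pow_char (h2 δ hδ) hn0, ?_⟩
  · rw [MonoidHom.pow_apply, h1 γ (Submodule.mem_inf.1 hγ).1, one_pow]
  · rw [hn, sub_self]
    exact (AV κ E (X ⊓ Y)).zero_mem

/-- The difference of two numbers with small supports. -/
theorem claimD (h : LWI κ E) (ρ : Multiplicative ℚ →* κ)
    (hρ : ∀ q : ℚ, q ≠ 0 → ρ (Multiplicative.ofAdd q) ≠ 1) {T₀ T₀' U₁ U₂ : Submodule ℚ Γ}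
    (h1 : U₁ ⊓ T₀' = T₀) (h2 : U₂ ⊓ T₀' = T₀) {x₁ d : C}
    (hx1 : x₁ ∈ AV κ E U₁) (hx2 : x₁ + d ∈ AV κ E U₂) (hd : d ∈ AV κ E T₀') :
    d ∈ AV κ E T₀ := by
  refine keyK h T₀ T₀' d hd fun Δ hΔ => ?_
  obtain ⟨χ, σ, hs, h3, h4⟩ := exists_scale h ρ hρ U₁ Δ (fun δ hδ hU =>
    (hΔ δ hδ).2 (h1 ▸ Submodule.mem_inf.2 ⟨hU, (hΔ δ hδ).1⟩))
  obtain ⟨n, hn0, hn⟩ := hs.fix_AV h3 hx1
  refine ⟨χ ^ n, σ ^ n, hs.pow n, fun γ hγ => ?_, fun δ hδ => pow_char (h4 δ hδ) hn0, ?_⟩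
  · rw [MonoidHom.pow_apply, h3 γ, one_pow]
    have h5 : γ ∈ U₁ ⊓ T₀' := h1 ▸ hγ
    exact (Submodule.mem_inf.1 h5).1
  · have h5 : (σ ^ n) d - d = (σ ^ n) (x₁ + d) - (x₁ + d) := by
      rw [map_add, hn]
      ring
    have h6 : (σ ^ n) d - d ∈ AV κ E U₂ := by
      rw [h5]
      exact (AV κ E U₂).sub_mem ((hs.pow n).map_AV _ hx2) hx2
    have h7 : (σ ^ n) d - d ∈ AV κ E T₀' :=
      (AV κ E T₀').sub_mem ((hs.pow n).map_AV _ hd) hd
    have h8 := AV_inter h ρ hρ h6 h7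
    rwa [h2] at h8

/-- The values of `E` at elements which are distinct modulo `V` are linearly independent over
`AV V`. -/
theorem li_AV (h : LWI κ E) (ρ : Multiplicative ℚ →* κ)
    (hρ : ∀ q : ℚ, q ≠ 0 → ρ (Multiplicative.ofAdd q) ≠ 1) (V : Submodule ℚ Γ) (G : Finset Γ)
    (hG : ∀ γ ∈ G, ∀ γ' ∈ G, γ ≠ γ' → γ - γ' ∉ V) (c : Γ → C) (hc : ∀ γ ∈ G, c γ ∈ AV κ E V)
    (h0 : ∑ γ ∈ G, c γ * ex E γ = 0) : ∀ γ ∈ G, c γ = 0 := by
  classical
  set Δ : Finset Γ := ((G ×ˢ G).filter fun p => p.1 ≠ p.2).image fun p => p.1 - p.2 with hΔ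
  obtain ⟨χ, σ, hs, h1, h2⟩ := exists_scale h ρ hρ V Δ (by
    intro δ hδ
    rw [hΔ, Finset.mem_image] at hδ
    obtain ⟨p, hp, rfl⟩ := hδ
    rw [Finset.mem_filter, Finset.mem_product] at hp
    exact hG _ hp.1.1 _ hp.1.2 hp.2)
  obtain ⟨n, hn0, hn⟩ := hs.fix_AV_finset h1 G c hc
  refine eigen_indep (ex E) (ex_ne E) (σ ^ n).toRingHom
    (fun γ => algebraMap κ C ((χ ^ n) (Multiplicative.ofAdd γ))) (fun γ => hs.pow n γ) _ G rfl ?_ c
    (fun γ hγ => hn γ hγ) (fun γ _ => (σ ^ n).commutes _) h0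
  intro γ hγ γ' hγ' hqq
  by_contra hne
  have h6 : (χ ^ n) (Multiplicative.ofAdd γ) = (χ ^ n) (Multiplicative.ofAdd γ') :=
    (algebraMap κ C).injective hqq
  have hmem : γ - γ' ∈ Δ := by
    rw [hΔ]
    exact Finset.mem_image.2 ⟨(γ, γ'), Finset.mem_filter.2
      ⟨Finset.mem_product.2 ⟨hγ, hγ'⟩, hne⟩, rfl⟩
  apply h2 _ hmem n hn0
  rw [ofAdd_sub, ← MonoidHom.pow_apply]
  have h9 : (χ ^ n) (Multiplicative.ofAdd γ / Multiplicative.ofAdd γ') *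
      (χ ^ n) (Multiplicative.ofAdd γ') = (χ ^ n) (Multiplicative.ofAdd γ) := by
    rw [← map_mul, div_mul_cancel]
  rw [h6] at h9
  exact mul_right_cancel₀ (char_ne (χ ^ n) _) (h9.trans (one_mul _).symm)

end Pool.Agent.W2helper76.UE
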