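import Mathlib
import Pool.Agent.W2helper76.UE.Key

/-!
# Uniform exponents: at most `m` groups of directions have infinite dimensional supports
-/

set_option autoImplicit false
set_option linter.unusedSectionVars false

namespace Pool.Agent.W2helper76.UE

open Module Polynomial

theorem dimdrop {Γ : Type} [AddCommGroup Γ] [Module ℚ Γ] {W T : Submodule ℚ Γ}
    (hW : FiniteDimensional ℚ W) {m : ℕ} (hWm : finrank ℚ W ≤ m + 1) (hne : W ⊓ T ≠ ⊥) :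
    ∃ V : Submodule ℚ Γ, FiniteDimensional ℚ V ∧ finrank ℚ V ≤ m ∧ W ≤ T ⊔ V := by
  obtain ⟨Q, hQ⟩ := Submodule.exists_isCompl (W ⊓ T)
  have h1 : (W ⊓ T) ⊔ (Q ⊓ W) = W := by
    rw [← sup_inf_assoc_of_le Q (inf_le_left : W ⊓ T ≤ W), hQ.sup_eq_top, top_inf_eq]
  have h2 : (W ⊓ T) ⊓ (Q ⊓ W) = ⊥ := by
    rw [← inf_assoc, hQ.inf_eq_bot, bot_inf_eq]
  have : FiniteDimensional ℚ (W ⊓ T : Submodule ℚ Γ) :=
    Submodule.finiteDimensional_of_le inf_le_left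
  have hf : FiniteDimensional ℚ (Q ⊓ W : Submodule ℚ Γ) :=
    Submodule.finiteDimensional_of_le inf_le_right
  refine ⟨Q ⊓ W, hf, ?_, ?_⟩
  · have h3 := Submodule.finrank_sup_add_finrank_inf_eq (W ⊓ T) (Q ⊓ W)
    rw [h1, h2, finrank_bot] at h3
    have h4 : 0 < finrank ℚ (W ⊓ T : Submodule ℚ Γ) := by
      rw [Nat.pos_iff_ne_zero]
      intro h
      exact hne (Submodule.finrank_eq_zero.1 h)
    omega
  · calc W = (W ⊓ T) ⊔ (Q ⊓ W) := h1.symm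
      _ ≤ T ⊔ (Q ⊓ W) := sup_le_sup_right inf_le_right _

variable {κ C Γ : Type} [Field κ] [Field C] [Algebra κ C] [AddCommGroup Γ] [Module ℚ Γ]
variable [IsAlgClosed C] {E : Multiplicative Γ →* C}

theorem large (h : LWI κ E) (ρ : Multiplicative ℚ →* κ)
    (hρ : ∀ q : ℚ, q ≠ 0 → ρ (Multiplicative.ofAdd q) ≠ 1)
    (hfd : ∀ x : C, ∃ V : Submodule ℚ Γ, FiniteDimensional ℚ V ∧ x ∈ AV κ E V) {S : Type} (m : ℕ) :
    ∀ (T₀ : Submodule ℚ Γ), FiniteDimensional ℚ T₀ → ∀ (x₀ : C) (u : Fin (m + 1) → S → C),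
      (∀ g, ∀ T : Submodule ℚ Γ, FiniteDimensional ℚ T → ∃ s, u g s ∉ AV κ E T) →
      ∃ f : Fin (m + 1) → S, ∀ V : Submodule ℚ Γ, FiniteDimensional ℚ V → finrank ℚ V ≤ m →
        x₀ + ∑ g, u g (f g) ∉ AV κ E (T₀ ⊔ V) := by
  induction m with
  | zero =>
    intro T₀ hT₀ x₀ u hu
    obtain ⟨V, hV, hxV⟩ := hfd x₀
    obtain ⟨s, hs⟩ := hu 0 (T₀ ⊔ V) inferInstance
    refine ⟨fun _ => s, fun V' hV' hr hmem => ?_⟩
    have h1 : V' = ⊥ := Submodule.finrank_eq_zero.1 (Nat.le_zero.1 hr)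
    rw [h1, sup_bot_eq, Fin.sum_univ_one] at hmem
    apply hs
    have h2 := (AV κ E (T₀ ⊔ V)).sub_mem (AV_mono le_sup_left hmem) (AV_mono le_sup_right hxV)
    rwa [add_sub_cancel_left] at h2
  | succ m ih =>
    intro T₀ hT₀ x₀ u hu
    by_contra hcon
    push Not at hcon
    obtain ⟨s₁, -⟩ := hu 0 ⊥ inferInstance
    obtain ⟨V₁, hV₁, hs₁⟩ := hfd (u 0 s₁)
    obtain ⟨s₂, hs₂⟩ := hu 0 (T₀ ⊔ V₁) inferInstance
    obtain ⟨V₂, hV₂, hs₂'⟩ := hfd (u 0 s₂)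
    set T := T₀ ⊔ V₁ ⊔ V₂ with hT
    have hTf : FiniteDimensional ℚ T := inferInstance
    have hle : T₀ ≤ T := le_sup_left.trans le_sup_left
    set d := u 0 s₂ - u 0 s₁ with hd
    have hdT : d ∈ AV κ E T :=
      (AV κ E T).sub_mem (AV_mono le_sup_right hs₂') (AV_mono (le_sup_right.trans le_sup_left) hs₁)
    have hdT₀ : d ∉ AV κ E T₀ := by
      intro hmem
      apply hs₂
      have h2 := (AV κ E (T₀ ⊔ V₁)).add_mem (AV_mono le_sup_left hmem) (AV_mono le_sup_right hs₁)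
      rwa [hd, sub_add_cancel] at h2
    obtain ⟨f, hf⟩ := ih T hTf (x₀ + u 0 s₁) (fun g => u g.succ) (fun g => hu g.succ)
    set x₁ := x₀ + u 0 s₁ + ∑ g : Fin (m + 1), u g.succ (f g) with hx₁
    obtain ⟨W₁, hW₁, hr₁, hm₁⟩ := hcon (Fin.cons s₁ f)
    obtain ⟨W₂, hW₂, hr₂, hm₂⟩ := hcon (Fin.cons s₂ f)
    have e₁ : x₀ + ∑ g, u g ((Fin.cons s₁ f : Fin (m + 2) → S) g) = x₁ := by
      rw [Fin.sum_univ_succ, hx₁]
      simp only [Fin.cons_zero, Fin.cons_succ]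
      ring
    have e₂ : x₀ + ∑ g, u g ((Fin.cons s₂ f : Fin (m + 2) → S) g) = x₁ + d := by
      rw [Fin.sum_univ_succ, hx₁, hd]
      simp only [Fin.cons_zero, Fin.cons_succ]
      ring
    rw [e₁] at hm₁
    rw [e₂] at hm₂
    have k₁ : W₁ ⊓ T = ⊥ := by
      by_contra hne
      obtain ⟨V, hV, hr, hle'⟩ := dimdrop hW₁ hr₁ hne
      apply hf V hV hr
      exact AV_mono (sup_le (hle.trans le_sup_left) hle') hm₁
    have k₂ : W₂ ⊓ T = ⊥ := by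
      by_contra hne
      obtain ⟨V, hV, hr, hle'⟩ := dimdrop hW₂ hr₂ hne
      apply hf V hV hr
      have h3 : x₁ + d ∈ AV κ E (T ⊔ V) :=
        AV_mono (sup_le (hle.trans le_sup_left) hle') hm₂
      have h4 := (AV κ E (T ⊔ V)).sub_mem h3 (AV_mono le_sup_left hdT)
      rwa [add_sub_cancel_right] at h4
    have j₁ : (T₀ ⊔ W₁) ⊓ T = T₀ := by
      rw [sup_inf_assoc_of_le W₁ hle, k₁, sup_bot_eq]
    have j₂ : (T₀ ⊔ W₂) ⊓ T = T₀ := by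
      rw [sup_inf_assoc_of_le W₂ hle, k₂, sup_bot_eq]
    exact hdT₀ (claimD h ρ hρ j₁ j₂ hm₁ hm₂ hdT)

end Pool.Agent.W2helper76.UE
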