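import Mathlib
import Pool.Agent.W2helper76.UE.Large

/-!
# Uniform exponents: reduction of the exponents to the support
-/

set_option autoImplicit false
set_option linter.unusedSectionVars false

namespace Pool.Agent.W2helper76.UE

open Module Polynomial

/-- `x` is exceptional with the given exponents -/
def BadAt (κ : Type) {C Γ L : Type} [Field κ] [Field C] [Algebra κ C] [AddCommGroup Γ] [Fintype L]
    (E : Multiplicative Γ →* C) {M : ℕ} (D : ℕ) (v : L → C) (γ : Fin M → Γ) (x : C) : Prop :=
  ∃ (c : L → Fin (D + 1) → Fin M → κ),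
    ∑ l, ∑ i, ∑ j, c l i j • (v l * x ^ (i : ℕ) * E (Multiplicative.ofAdd (γ j))) = 0 ∧
    ∃ i, ∑ l, ∑ j, c l i j • (v l * E (Multiplicative.ofAdd (γ j))) ≠ 0

variable {κ C Γ : Type} [Field κ] [Field C] [Algebra κ C] [AddCommGroup Γ] [Module ℚ Γ]
variable {E : Multiplicative Γ →* C}

/-- Every number has a finite dimensional support. -/
theorem fd_support (κ' : IntermediateField κ C) (h : LWI κ' E)
    (halg : ∀ x : C, IsAlgebraic (IntermediateField.adjoin κ' (Set.range E)) x) (x : C) :
    ∃ V : Submodule ℚ Γ, FiniteDimensional ℚ V ∧ x ∈ AV κ' E V := by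
  classical
  have h1 : x ∈ AV κ' E ⊤ := by
    rw [mem_AV]
    have h2 : KV κ' E (⊤ : Submodule ℚ Γ) = IntermediateField.adjoin κ' (Set.range E) := by
      unfold KV
      congr 1
      ext z
      constructor
      · rintro ⟨γ, _, rfl⟩
        exact ⟨_, rfl⟩
      · rintro ⟨γ, rfl⟩
        exact ⟨Multiplicative.toAdd γ, trivial, rfl⟩
    rw [h2]
    exact halg x
  obtain ⟨G, a, -, ⟨γ₁, hγ₁, ha⟩, hrel⟩ := exists_rel h1
  set V : Submodule ℚ Γ := Submodule.span ℚ (G : Set Γ) with hV
  have hfin : FiniteDimensional ℚ V := FiniteDimensional.span_finset ℚ G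
  refine ⟨V, hfin, ?_⟩
  set p : C[X] := ∑ γ ∈ G, Polynomial.C (ex E γ) * (a γ).map (algebraMap κ' C) with hp
  refine mem_of_poly p ?_ ?_ ?_
  · intro h0
    apply ha
    ext1 i
    rw [coeff_zero]
    have h3 := congrArg (fun q => q.coeff i) h0
    simp only [hp, finsetSum_coeff, coeff_C_mul, coeff_map, coeff_zero] at h3
    refine (linearIndependent_iff'.1 h) G (fun γ => (a γ).coeff i) ?_ γ₁ hγ₁
    rw [← h3]
    apply Finset.sum_congr rfl
    intro γ _
    rw [Algebra.smul_def, mul_comm]
    rfl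
  · intro i
    rw [hp, finsetSum_coeff]
    refine (AV κ' E V).sum_mem fun γ hγ => ?_
    rw [coeff_C_mul, coeff_map]
    exact (AV κ' E V).mul_mem (ex_mem_AV (Submodule.subset_span hγ))
      ((AV κ' E V).algebraMap_mem _)
  · rw [hp, eval_finsetSum, ← hrel]
    apply Finset.sum_congr rfl
    intro γ _
    rw [eval_mul, eval_C, eval_map, mul_comm]
    rfl

/-- An exceptional number has a small relative support. -/
theorem bad_support (κ' : IntermediateField κ C) {L : Type} [Fintype L] {M D : ℕ} {v : L → C}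
    {T : Submodule ℚ Γ} (hv : ∀ l, v l ∈ AV κ' E T) {x : C} (hx : Bad κ E M D v x) :
    ∃ V : Submodule ℚ Γ, FiniteDimensional ℚ V ∧ finrank ℚ V ≤ M ∧ x ∈ AV κ' E (T ⊔ V) := by
  classical
  obtain ⟨γ, c, h1, i₀, h2⟩ := hx
  set V : Submodule ℚ Γ := Submodule.span ℚ (Set.range γ) with hV
  have hfin : FiniteDimensional ℚ V := FiniteDimensional.span_of_finite ℚ (Set.finite_range γ)
  refine ⟨V, hfin, ?_, ?_⟩
  · have := finrank_range_le_card (R := ℚ) γ
    rwa [Fintype.card_fin] at this
  · set b : Fin (D + 1) → C := fun i => ∑ l, ∑ j, c l i j • (v l * E (Multiplicative.ofAdd (γ j)))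
      with hb
    have hbm : ∀ i, b i ∈ AV κ' E (T ⊔ V) := by
      intro i
      refine (AV κ' E (T ⊔ V)).sum_mem fun l _ => (AV κ' E (T ⊔ V)).sum_mem fun j _ => ?_
      have h3 : c l i j • (v l * E (Multiplicative.ofAdd (γ j))) =
          (algebraMap κ' C (algebraMap κ κ' (c l i j))) * (v l * ex E (γ j)) := by
        rw [Algebra.smul_def]
        rfl
      rw [h3]
      refine (AV κ' E (T ⊔ V)).mul_mem ((AV κ' E (T ⊔ V)).algebraMap_mem _) ?_
      refine (AV κ' E (T ⊔ V)).mul_mem (AV_mono le_sup_left (hv l)) (ex_mem_AV ?_)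
      exact Submodule.mem_sup_right (Submodule.subset_span ⟨j, rfl⟩)
    set p : C[X] := ∑ i : Fin (D + 1), monomial (i : ℕ) (b i) with hp
    refine mem_of_poly p ?_ ?_ ?_
    · intro h0
      apply h2
      have h3 := congrArg (fun q => q.coeff (i₀ : ℕ)) h0
      simp only [hp, finsetSum_coeff, coeff_zero] at h3
      rw [Finset.sum_eq_single i₀] at h3
      · rw [coeff_monomial, if_pos rfl] at h3
        exact h3
      · intro j _ hj
        rw [coeff_monomial, if_neg]
        intro h4
        exact hj (Fin.ext h4)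
      · intro h4
        exact absurd (Finset.mem_univ _) h4
    · intro k
      rw [hp, finsetSum_coeff]
      refine (AV κ' E (T ⊔ V)).sum_mem fun i _ => ?_
      rw [coeff_monomial]
      split_ifs
      · exact hbm i
      · exact (AV κ' E (T ⊔ V)).zero_mem
    · rw [hp, eval_finsetSum, ← h1, Finset.sum_comm]
      apply Finset.sum_congr rfl
      intro i _
      rw [eval_monomial, hb, Finset.sum_mul]
      apply Finset.sum_congr rfl
      intro l _
      rw [Finset.sum_mul]
      apply Finset.sum_congr rfl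
      intro j _
      rw [Algebra.smul_def, Algebra.smul_def]
      ring

/-- The exponents can be chosen in the support. -/
theorem reduce [IsAlgClosed C] (κ' : IntermediateField κ C) (h : LWI κ' E)
    (ρ : Multiplicative ℚ →* κ') (hρ : ∀ q : ℚ, q ≠ 0 → ρ (Multiplicative.ofAdd q) ≠ 1)
    {L : Type} [Fintype L] {M D : ℕ} {v : L → C}
    {T : Submodule ℚ Γ} (hv : ∀ l, v l ∈ AV κ' E T) {x : C} (hxT : x ∈ AV κ' E T)
    (hx : Bad κ E M D v x) : ∃ γ : Fin M → Γ, (∀ j, γ j ∈ T) ∧ BadAt κ E D v γ x := by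
  classical
  obtain ⟨γ, c, h1, i₀, h2⟩ := hx
  -- representatives
  set rep : Γ → Γ := fun γ => Function.surjInv T.mkQ_surjective (T.mkQ γ) with hrep
  have hrep1 : ∀ γ, T.mkQ (rep γ) = T.mkQ γ := fun γ =>
    Function.surjInv_eq T.mkQ_surjective (T.mkQ γ)
  have hrep2 : ∀ γ, γ - rep γ ∈ T := by
    intro γ
    have h1 := (hrep1 γ).symm
    rw [Submodule.mkQ_apply, Submodule.mkQ_apply, Submodule.Quotient.eq] at h1
    exact h1
  have hrep3 : ∀ γ γ', γ - γ' ∈ T → rep γ = rep γ' := by
    intro γ γ' h1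
    have h2 : T.mkQ γ = T.mkQ γ' := by
      rw [Submodule.mkQ_apply, Submodule.mkQ_apply, Submodule.Quotient.eq]
      exact h1
    simp only [hrep, h2]
  set Q : Finset Γ := Finset.univ.image fun j => rep (γ j) with hQ
  set b : Fin M → C := fun j => ∑ l, ∑ i : Fin (D + 1), c l i j • (v l * x ^ (i : ℕ)) with hb
  have hbm : ∀ j, b j ∈ AV κ' E T := by
    intro j
    refine (AV κ' E T).sum_mem fun l _ => (AV κ' E T).sum_mem fun i _ => ?_
    have h3 : c l i j • (v l * x ^ (i : ℕ)) =
        (algebraMap κ' C (algebraMap κ κ' (c l i j))) * (v l * x ^ (i : ℕ)) := by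
      rw [Algebra.smul_def]
      rfl
    rw [h3]
    exact (AV κ' E T).mul_mem ((AV κ' E T).algebraMap_mem _)
      ((AV κ' E T).mul_mem (hv l) (pow_mem hxT _))
  have h3 : ∑ q ∈ Q, (∑ j ∈ Finset.univ.filter (fun j => rep (γ j) = q),
      b j * ex E (γ j - rep (γ j))) * ex E q = 0 := by
    have h4 : ∑ j, b j * ex E (γ j) = 0 := by
      rw [← h1]
      have e1 : ∀ j, b j * ex E (γ j) =
          ∑ l, ∑ i : Fin (D + 1), c l i j • (v l * x ^ (i : ℕ) * E (Multiplicative.ofAdd (γ j))) := by
        intro j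
        rw [hb, Finset.sum_mul]
        apply Finset.sum_congr rfl
        intro l _
        rw [Finset.sum_mul]
        apply Finset.sum_congr rfl
        intro i _
        rw [smul_mul_assoc]
        rfl
      rw [Finset.sum_congr rfl fun j _ => e1 j, Finset.sum_comm]
      apply Finset.sum_congr rfl
      intro l _
      rw [Finset.sum_comm]
    rw [← h4, ← Finset.sum_fiberwise_of_maps_to (s := Finset.univ) (t := Q)
      (g := fun j => rep (γ j)) (fun j hj => Finset.mem_image_of_mem _ hj)]
    apply Finset.sum_congr rfl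
    intro q _
    rw [Finset.sum_mul]
    apply Finset.sum_congr rfl
    intro j hj
    rw [Finset.mem_filter] at hj
    rw [← hj.2, mul_assoc, ex_sub]
  have h4 := li_AV h ρ hρ T Q (by
    intro q hq q' hq' hne hmem
    rw [hQ, Finset.mem_image] at hq hq'
    obtain ⟨j, _, rfl⟩ := hq
    obtain ⟨j', _, rfl⟩ := hq'
    apply hne
    apply hrep3
    have e1 : γ j - γ j' = (γ j - rep (γ j)) + (rep (γ j) - rep (γ j')) - (γ j' - rep (γ j')) := by
      abel
    rw [e1]
    exact T.sub_mem (T.add_mem (hrep2 _) hmem) (hrep2 _)) _ (by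
    intro q _
    refine (AV κ' E T).sum_mem fun j _ => ?_
    exact (AV κ' E T).mul_mem (hbm j) (ex_mem_AV (hrep2 _))) h3
  -- the coset
  have h5 : ∃ q ∈ Q, ∑ l, ∑ j ∈ Finset.univ.filter (fun j => rep (γ j) = q),
      c l i₀ j • (v l * ex E (γ j - rep (γ j))) ≠ 0 := by
    by_contra hcon
    push Not at hcon
    apply h2
    have e1 : ∀ l, ∑ j, c l i₀ j • (v l * E (Multiplicative.ofAdd (γ j))) =
        ∑ q ∈ Q, ∑ j ∈ Finset.univ.filter (fun j => rep (γ j) = q),
          c l i₀ j • (v l * ex E (γ j - rep (γ j))) * ex E q := by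
      intro l
      rw [← Finset.sum_fiberwise_of_maps_to (s := Finset.univ) (t := Q)
        (g := fun j => rep (γ j)) (fun j hj => Finset.mem_image_of_mem _ hj)]
      apply Finset.sum_congr rfl
      intro q _
      apply Finset.sum_congr rfl
      intro j hj
      rw [Finset.mem_filter] at hj
      rw [← hj.2, smul_mul_assoc, mul_assoc, ex_sub]
      rfl
    rw [Finset.sum_congr rfl fun l _ => e1 l, Finset.sum_comm]
    apply Finset.sum_eq_zero
    intro q hq
    have e2 := hcon q hq
    have e3 : ∑ l, ∑ j ∈ Finset.univ.filter (fun j => rep (γ j) = q),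
        c l i₀ j • (v l * ex E (γ j - rep (γ j))) * ex E q =
        (∑ l, ∑ j ∈ Finset.univ.filter (fun j => rep (γ j) = q),
          c l i₀ j • (v l * ex E (γ j - rep (γ j)))) * ex E q := by
      rw [Finset.sum_mul]
      apply Finset.sum_congr rfl
      intro l _
      rw [Finset.sum_mul]
    rw [e3, e2, zero_mul]
  obtain ⟨q, hq, h6⟩ := h5
  refine ⟨fun j => if rep (γ j) = q then γ j - rep (γ j) else 0, ?_,
    fun l i j => if rep (γ j) = q then c l i j else 0, ?_, i₀, ?_⟩
  · intro j
    simp only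
    split_ifs
    · exact hrep2 _
    · exact T.zero_mem
  · have h7 := h4 q hq
    rw [← h7]
    have e1 : ∀ (l : L) (i : Fin (D + 1)), ∑ j, (if rep (γ j) = q then c l i j else 0) •
        (v l * x ^ (i : ℕ) * E (Multiplicative.ofAdd (if rep (γ j) = q then γ j - rep (γ j) else 0))) =
        ∑ j ∈ Finset.univ.filter (fun j => rep (γ j) = q),
          c l i j • (v l * x ^ (i : ℕ)) * ex E (γ j - rep (γ j)) := by
      intro l i
      rw [Finset.sum_filter]
      apply Finset.sum_congr rfl
      intro j _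
      split_ifs
      · rw [smul_mul_assoc]
        rfl
      · rw [zero_smul]
    simp only [e1]
    have e2 : ∀ l : L, ∑ i : Fin (D + 1), ∑ j ∈ Finset.univ.filter (fun j => rep (γ j) = q),
        c l i j • (v l * x ^ (i : ℕ)) * ex E (γ j - rep (γ j)) =
        ∑ j ∈ Finset.univ.filter (fun j => rep (γ j) = q), ∑ i : Fin (D + 1),
        c l i j • (v l * x ^ (i : ℕ)) * ex E (γ j - rep (γ j)) := fun l => Finset.sum_comm
    simp only [e2]
    rw [Finset.sum_comm]
    apply Finset.sum_congr rfl
    intro j _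
    rw [hb, Finset.sum_mul]
    apply Finset.sum_congr rfl
    intro l _
    rw [Finset.sum_mul]
  · intro h0
    apply h6
    rw [← h0]
    apply Finset.sum_congr rfl
    intro l _
    rw [Finset.sum_filter]
    apply Finset.sum_congr rfl
    intro j _
    beta_reduce
    split_ifs
    · rfl
    · rw [zero_smul]

end Pool.Agent.W2helper76.UE
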