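import Mathlib
import Pool.Agent.W2helper76.UE.Red
import Pool.Agent.W2helper76.UE.Pigeon
import Pool.Agent.Y918.QC.Cube

/-!
# Uniform exponents: the grid theorem
-/

set_option autoImplicit false
set_option linter.unusedSectionVars false

namespace Pool.Agent.W2helper76.UE

open Module Finset
open Pool.Agent.W245 (IndepOver)
open Pool.Agent.Y918.QC (GridP cube_exact)

/-- The grid theorem for a fixed space, with uniform bounds. -/
theorem cubeU (D N : ℕ) : ∃ G B : ℕ, ∀ (κ C : Type) [Field κ] [IsAlgClosed κ] [CharZero κ]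
    [Field C] [Algebra κ C] (W : Submodule κ C), Module.Finite κ W →
      finrank κ W ≤ N → GridP D G B W := by
  classical
  induction N with
  | zero =>
    refine ⟨0, 0, fun κ C _ _ _ _ _ W hW hN => ?_⟩
    intro z₀ w _
    refine ⟨Fin.elim0, ?_⟩
    have h1 : W = ⊥ := Submodule.finrank_eq_zero.1 (Nat.le_zero.1 hN)
    intro c hc _ e
    have h2 := hc e
    rw [h1] at h2
    exact (Submodule.mem_bot κ).1 h2
  | succ N ih =>
    obtain ⟨G, B, hGB⟩ := ih
    set m := Fintype.card (Fin (N + 1) × Fin (D + 1)) with hm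
    have hmpos : 0 < m := by
      rw [hm]
      exact Fintype.card_pos
    obtain ⟨p, hp⟩ := Pool.Agent.Y918.QC.exists_size m (m * D) hmpos
    refine ⟨max G (m * D), max B (m * p + 1), fun κ C _ _ _ _ _ W hW hN => ?_⟩
    rcases Nat.lt_or_ge (finrank κ W) (N + 1) with h | h
    · exact (hGB κ C W hW (by omega)).mono (le_max_left _ _) (le_max_left _ _)
    · have hN' : finrank κ W = N + 1 := le_antisymm hN h
      have h1 : GridP D (m * D) (m * p + 1) W := by
        let b := Module.finBasisOfFinrankEq κ W hN'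
        have hli : LinearIndependent κ (fun i => ((b i : W) : C)) :=
          b.linearIndependent.map' W.subtype (Submodule.ker_subtype W)
        have hspan : Submodule.span κ (Set.range fun i => ((b i : W) : C)) = W := by
          have h2 : (Set.range fun i => ((b i : W) : C)) = W.subtype '' Set.range b := by
            rw [← Set.range_comp]
            rfl
          rw [h2, Submodule.span_image, b.span_eq, Submodule.map_top, Submodule.range_subtype]
        intro z₀ w hw
        have h3 := cube_exact κ κ C (ι := Fin (N + 1)) D p m hm hp (I := Fin (m * p + 1))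
          (by rw [Fintype.card_fin]) (fun i => ((b i : W) : C)) hli z₀ w hw
        rw [hspan] at h3
        exact h3
      exact h1.mono (le_max_right _ _) (le_max_right _ _)

/-- The space of coefficients. -/
theorem badAt_not_indep {κ C Γ L : Type} [Field κ] [Field C] [Algebra κ C] [AddCommGroup Γ]
    [Fintype L] {E : Multiplicative Γ →* C} {M D : ℕ} {v : L → C} {γ : Fin M → Γ} {x : C}
    (h : BadAt κ E D v γ x) :
    ¬ IndepOver (Submodule.span κ (Set.range fun p : L × Fin M =>
      v p.1 * E (Multiplicative.ofAdd (γ p.2)))) (fun e : Fin (D + 1) => x ^ (e : ℕ)) := by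
  intro hind
  obtain ⟨c, h1, i₀, h2⟩ := h
  apply h2
  refine hind (fun i => ∑ l, ∑ j, c l i j • (v l * E (Multiplicative.ofAdd (γ j)))) ?_ ?_ i₀
  · intro i
    refine Submodule.sum_mem _ fun l _ => Submodule.sum_mem _ fun j _ => ?_
    exact Submodule.smul_mem _ _ (Submodule.subset_span ⟨(l, j), rfl⟩)
  · rw [← h1, Finset.sum_comm]
    have : ∀ i : Fin (D + 1), (∑ l, ∑ j, c l i j • (v l * E (Multiplicative.ofAdd (γ j)))) *
        x ^ (i : ℕ) = ∑ l, ∑ j, c l i j • (v l * x ^ (i : ℕ) * E (Multiplicative.ofAdd (γ j))) := by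
      intro i
      rw [Finset.sum_mul]
      apply Finset.sum_congr rfl
      intro l _
      rw [Finset.sum_mul]
      apply Finset.sum_congr rfl
      intro j _
      rw [Algebra.smul_def, Algebra.smul_def]
      ring
    rw [Finset.sum_congr rfl fun i _ => this i]

/-- differences of a linearly independent family -/
theorem li_sub {κ C : Type} [Field κ] [Field C] [Algebra κ C] {B : ℕ} (f : Fin (B + 1) → C)
    (hf : LinearIndependent κ f) : LinearIndependent κ (fun i : Fin B => f i.succ - f 0) := by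
  rw [Fintype.linearIndependent_iff] at hf ⊢
  intro c hc i
  have h1 := hf (Fin.cons (-∑ i, c i) c) (by
    rw [Fin.sum_univ_succ]
    simp only [Fin.cons_zero, Fin.cons_succ]
    rw [← hc]
    simp only [smul_sub, Finset.sum_sub_distrib]
    rw [neg_smul, ← Finset.sum_smul]
    ring) i.succ
  simpa using h1

theorem sum_extend {G K : ℕ} {S C : Type} [AddCommGroup C] (e : Fin K → Fin G)
    (he : Function.Injective e) (u : Fin G → S → C) (f : Fin K → S) (s₀ : S) :
    ∑ g, u g (Function.extend e f (fun _ => s₀) g) =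
      ∑ g ∈ (Finset.univ.image e)ᶜ, u g s₀ + ∑ k, u (e k) (f k) := by
  classical
  rw [← Finset.sum_compl_add_sum (Finset.univ.image e)]
  congr 1
  · apply Finset.sum_congr rfl
    intro g hg
    rw [Function.extend_apply']
    rintro ⟨k, rfl⟩
    rw [Finset.mem_compl] at hg
    exact hg (Finset.mem_image_of_mem e (Finset.mem_univ k))
  · rw [Finset.sum_image (fun a _ b _ h => he h)]
    apply Finset.sum_congr rfl
    intro k _
    rw [he.extend_apply]

/-- The structure cannot exist. -/
theorem no_grid {κ C Γ : Type} [Field κ] [Field C] [Algebra κ C] [AddCommGroup Γ] [Module ℚ Γ]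
    [IsAlgClosed κ] [CharZero κ] [IsAlgClosed C] {E : Multiplicative Γ →* C}
    {M D N G₁ B₁ : ℕ}
    (hGB : ∀ W : Submodule κ C, Module.Finite κ W → finrank κ W ≤ N * M → GridP D G₁ B₁ W)
    {S : Type} (hS0 : Nonempty S)
    (hS : ∀ c : (Fin G₁ → S) → ℕ, ∃ (A : Fin G₁ → Fin (B₁ + 1) → S) (n : ℕ),
      (∀ g, Function.Injective (A g)) ∧ ∀ η : Fin G₁ → Fin (B₁ + 1), c (fun g => A g (η g)) = n)
    (κ' : IntermediateField κ C) (hE : LWI κ' E)
    (halg : ∀ x : C, IsAlgebraic (IntermediateField.adjoin κ' (Set.range E)) x)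
    (ρ : Multiplicative ℚ →* κ) (hρ : ∀ q : ℚ, q ≠ 0 → ρ (Multiplicative.ofAdd q) ≠ 1)
    (v : Fin N → C) (x₀ : C) (u : Fin (G₁ + M) → S → C) (hu : ∀ g, LinearIndependent κ (u g))
    (hbad : ∀ f : Fin (G₁ + M) → S, Bad κ E M D v (x₀ + ∑ g, u g (f g))) : False := by
  classical
  obtain ⟨s₀⟩ := hS0
  set ρ' : Multiplicative ℚ →* κ' := (algebraMap κ κ').toMonoidHom.comp ρ with hρ'
  have hρ'1 : ∀ q : ℚ, q ≠ 0 → ρ' (Multiplicative.ofAdd q) ≠ 1 := by
    intro q hq h1
    apply hρ q hq
    have h2 : algebraMap κ κ' (ρ (Multiplicative.ofAdd q)) = algebraMap κ κ' 1 := by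
      rw [map_one]
      exact h1
    exact (algebraMap κ κ').injective h2
  have hfd := fd_support κ' hE halg
  choose supp hsf hsm using hfd
  set T₀ : Submodule ℚ Γ := ⨆ l, supp (v l) with hT₀
  have hT₀f : FiniteDimensional ℚ T₀ := by
    have := fun l => hsf (v l)
    rw [hT₀]
    infer_instance
  have hv : ∀ l, v l ∈ AV κ' E T₀ := fun l => AV_mono (le_iSup (fun l => supp (v l)) l) (hsm _)
  -- large and small groups
  set Lg : Finset (Fin (G₁ + M)) := univ.filter fun g =>
    ∀ T : Submodule ℚ Γ, FiniteDimensional ℚ T → ∃ s, u g s ∉ AV κ' E T with hLg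
  have hcard : Lg.card ≤ M := by
    by_contra hlt
    push Not at hlt
    let e := Lg.orderEmbOfCardLe (show M + 1 ≤ Lg.card by omega)
    have he : ∀ k, e k ∈ Lg := fun k => Lg.orderEmbOfCardLe_mem _ k
    obtain ⟨f, hf⟩ := large hE ρ' hρ'1 (fun x => ⟨supp x, hsf x, hsm x⟩) M T₀ hT₀f
      (x₀ + ∑ g ∈ (Finset.univ.image e)ᶜ, u g s₀) (fun k => u (e k)) (fun k => by
        have := he k
        rw [hLg, mem_filter] at this
        exact this.2)
    have h1 := hbad (Function.extend e f (fun _ => s₀))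
    rw [sum_extend e e.injective, ← add_assoc] at h1
    obtain ⟨V, hV, hr, hmem⟩ := bad_support κ' hv h1
    exact hf V hV hr hmem
  have hcard2 : G₁ ≤ Lgᶜ.card := by
    rw [Finset.card_compl, Fintype.card_fin]
    omega
  let e := Lgᶜ.orderEmbOfCardLe hcard2
  have he : ∀ k, ∃ T : Submodule ℚ Γ, FiniteDimensional ℚ T ∧ ∀ s, u (e k) s ∈ AV κ' E T := by
    intro k
    have h1 : e k ∈ Lgᶜ := Lgᶜ.orderEmbOfCardLe_mem _ k
    rw [mem_compl, hLg, mem_filter] at h1
    push Not at h1
    exact h1 (mem_univ _)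
  choose Tk hTkf hTk using he
  set x₁ := x₀ + ∑ g ∈ (Finset.univ.image e)ᶜ, u g s₀ with hx₁
  have hbad' : ∀ f : Fin G₁ → S, Bad κ E M D v (x₁ + ∑ k, u (e k) (f k)) := by
    intro f
    have h1 := hbad (Function.extend e f (fun _ => s₀))
    rwa [sum_extend e e.injective, ← add_assoc] at h1
  set T : Submodule ℚ Γ := T₀ ⊔ supp x₁ ⊔ ⨆ k, Tk k with hT
  have hTf : FiniteDimensional ℚ T := by
    have := hsf x₁
    rw [hT]
    infer_instance
  have hvT : ∀ l, v l ∈ AV κ' E T := fun l => AV_mono (le_sup_left.trans le_sup_left) (hv l)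
  have hxT : ∀ f : Fin G₁ → S, x₁ + ∑ k, u (e k) (f k) ∈ AV κ' E T := by
    intro f
    refine (AV κ' E T).add_mem (AV_mono (le_sup_right.trans le_sup_left) (hsm x₁)) ?_
    refine (AV κ' E T).sum_mem fun k _ => ?_
    exact AV_mono ((le_iSup Tk k).trans le_sup_right) (hTk k (f k))
  choose γ hγT hγ using fun f => reduce κ' hE ρ' hρ'1 hvT (hxT f) (hbad' f)
  have hct : Countable T := by
    let b := Module.finBasis ℚ T
    exact b.equivFun.toEquiv.injective.countable
  have hct2 : Countable (Fin M → T) := inferInstance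
  obtain ⟨code, hcode⟩ := exists_injective_nat (Fin M → T)
  obtain ⟨A, n, hA, hn⟩ := hS (fun f => code (fun j => ⟨γ f j, hγT f j⟩))
  set γ₀ : Fin M → Γ := γ (fun g => A g 0) with hγ₀
  have hγeq : ∀ η : Fin G₁ → Fin (B₁ + 1), γ (fun g => A g (η g)) = γ₀ := by
    intro η
    have h1 : code (fun j => ⟨γ (fun g => A g (η g)) j, hγT _ j⟩) =
        code (fun j => ⟨γ (fun g => A g 0) j, hγT _ j⟩) := (hn η).trans (hn (fun _ => 0)).symm
    have h2 := hcode h1
    funext j
    exact congrArg Subtype.val (congrFun h2 j)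
  set W : Submodule κ C := Submodule.span κ (Set.range fun p : Fin N × Fin M =>
      v p.1 * E (Multiplicative.ofAdd (γ₀ p.2))) with hW
  have hWf : Module.Finite κ W := FiniteDimensional.span_of_finite κ (Set.finite_range _)
  have hWr : finrank κ W ≤ N * M := by
    have h1 := finrank_range_le_card (R := κ) (fun p : Fin N × Fin M =>
      v p.1 * E (Multiplicative.ofAdd (γ₀ p.2)))
    rw [Fintype.card_prod, Fintype.card_fin, Fintype.card_fin] at h1
    exact h1
  obtain ⟨η, hη⟩ := hGB W hWf hWr (x₁ + ∑ k, u (e k) (A k 0))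
    (fun k i => u (e k) (A k i.succ) - u (e k) (A k 0)) (fun k => by
      have h1 : LinearIndependent κ (fun i : Fin (B₁ + 1) => u (e k) (A k i)) :=
        (hu (e k)).comp (A k) (hA k)
      exact li_sub _ h1)
  set η' : Fin G₁ → Fin (B₁ + 1) := fun g => (η g).elim 0 Fin.succ with hη'
  have h1 := hγ (fun g => A g (η' g))
  rw [hγeq η'] at h1
  have h2 := badAt_not_indep h1
  apply h2
  have h3 : x₁ + ∑ k, u (e k) (A k (η' k)) = x₁ + ∑ k, u (e k) (A k 0) +
      ∑ k, (η k).elim 0 (fun i => u (e k) (A k i.succ) - u (e k) (A k 0)) := by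
    rw [add_assoc x₁, ← Finset.sum_add_distrib]
    congr 1
    apply Finset.sum_congr rfl
    intro k _
    simp only [hη']
    rcases η k with _ | i
    · simp
    · simp
  rw [h3]
  exact hη

/-- **The grid theorem.** -/
theorem grid (hZ : EnlargeStm) (hU : UltraStm) : GridStm := by
  classical
  intro N M D
  obtain ⟨G₁, B₁, hGB⟩ := cubeU D (N * M)
  obtain ⟨S, hS0, hS⟩ := pigeon (B₁ + 1) (Nat.succ_pos _) G₁
  by_contra hcon
  push Not at hcon
  have hyp : ∀ B : ℕ, ∃ (v : Fin N → ℂ) (x₀ : ℂ) (w : Fin (G₁ + M) → Fin B → ℂ),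
      (∀ g, LinearIndependent QB (w g)) ∧
      ∀ η : Fin (G₁ + M) → Option (Fin B), Bad QB expQ M D v (x₀ + ∑ g, (η g).elim 0 (w g)) := by
    intro B
    obtain ⟨v, x₀, w, h1, h2⟩ := hcon (G₁ + M) B
    exact ⟨v, x₀, w, h1, h2⟩
  obtain ⟨κ, C, Γ, i₁, i₂, i₃, i₄, i₅, E, ρ, v, x₀, u, hk, hc0, hC, hE, hρ, hu, hbad⟩ :=
    hU N M D (G₁ + M) hyp S
  obtain ⟨κ', hE', halg⟩ := hZ κ C Γ E hE
  exact no_grid (fun W hW hr => hGB κ C W hW hr) hS0 hS κ' hE' halg ρ hρ v x₀ u hu hbad

end Pool.Agent.W2helper76.UE
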