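import Pool.Agent.W2helper76.UE.Uni
import Pool.Agent.W2helper3.UE.Poly

/-!
# Universal sequences: relations between elements of the spaces spanned by the tails
-/

set_option autoImplicit false

namespace Pool.Agent.W2helper76.UE

open Pool.Agent.W2helper17.UE MvPolynomial

/-- polynomial form of `GoodV` -/
theorem good_poly {M D r : ℕ} {y : Fin r → ℂ} (h : GoodV M (prodFam D y)) (γ : Fin M → QB)
    (hγ : Function.Injective γ) (Q : Fin M → MvPolynomial (Fin r) QB)
    (hQ : ∀ j i, (Q j).degreeOf i ≤ D)
    (h0 : ∑ j, Complex.exp (γ j : ℂ) * aeval y (Q j) = 0) : Q = 0 := by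
  classical
  let ex : (Fin r → Fin (D + 1)) → (Fin r →₀ ℕ) := fun a =>
    Finsupp.equivFunOnFinite.symm (fun i => (a i : ℕ))
  have hex : Function.Injective ex := by
    intro a b hab
    funext i
    exact Fin.ext (DFunLike.congr_fun hab i)
  have hsupp : ∀ j, (Q j).support ⊆ (Finset.univ : Finset (Fin r → Fin (D + 1))).image ex := by
    intro j m hm
    rw [Finset.mem_image]
    refine ⟨fun i => ⟨m i, Nat.lt_succ_of_le ((degreeOf_le_iff.1 (hQ j i)) m hm)⟩,
      Finset.mem_univ _, ?_⟩
    ext i
    simp [ex]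
  have h1 := Fintype.linearIndependent_iff.1 (h γ hγ)
    (fun p : (Fin r → Fin (D + 1)) × Fin M => (Q p.2).coeff (ex p.1)) (by
      rw [← h0, Fintype.sum_prod_type, Finset.sum_comm]
      refine Finset.sum_congr rfl fun j _ => ?_
      rw [aeval_def, eval₂_eq', Finset.mul_sum,
        Finset.sum_subset (hsupp j) (by
          intro m _ hm
          rw [notMem_support_iff.1 hm, map_zero, zero_mul, mul_zero]),
        Finset.sum_image (fun a _ b _ hab => hex hab)]
      refine Finset.sum_congr rfl fun a _ => ?_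
      rw [Algebra.smul_def]
      have h2 : expQ (Multiplicative.ofAdd (γ j)) = Complex.exp (γ j : ℂ) := rfl
      have h3 : prodFam D y a = ∏ i, y i ^ (ex a i) := rfl
      rw [h2, h3]
      ring)
  funext j
  ext1 m
  rw [Pi.zero_apply, coeff_zero]
  by_cases hm : m ∈ (Q j).support
  · obtain ⟨a, _, rfl⟩ := Finset.mem_image.1 (hsupp j hm)
    exact h1 (a, j)
  · exact notMem_support_iff.1 hm

section subst

variable {K : Type} [Field K] {σ τ : Type} [Fintype σ] [Fintype τ]

/-- a linear substitution -/
noncomputable def lsub (b : σ → τ → K) : MvPolynomial σ K →ₐ[K] MvPolynomial τ K :=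
  aeval (fun l => ∑ i, C (b l i) * (X i : MvPolynomial τ K))

theorem lsub_X (b : σ → τ → K) (l : σ) :
    lsub b (X l) = ∑ i, C (b l i) * (X i : MvPolynomial τ K) := aeval_X _ _

/-- a linear substitution does not increase the total degree -/
theorem totalDegree_lsub (b : σ → τ → K) (P : MvPolynomial σ K) :
    (lsub b P).totalDegree ≤ P.totalDegree := by
  classical
  rw [lsub, aeval_def, eval₂_eq']
  refine (totalDegree_finsetSum _ _).trans (Finset.sup_le fun m hm => ?_)
  refine (totalDegree_mul _ _).trans ?_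
  have h1 : (algebraMap K (MvPolynomial τ K) (P.coeff m)).totalDegree = 0 := by
    rw [algebraMap_eq]
    exact totalDegree_C _
  rw [h1, zero_add]
  refine (totalDegree_finsetProd _ _).trans ?_
  have h2 : ∀ l, ((∑ i, C (b l i) * (X i : MvPolynomial τ K)) ^ m l).totalDegree ≤ m l := by
    intro l
    refine (totalDegree_pow _ _).trans ?_
    have h3 : (∑ i, C (b l i) * (X i : MvPolynomial τ K)).totalDegree ≤ 1 := by
      refine (totalDegree_finsetSum _ _).trans (Finset.sup_le fun i _ => ?_)
      refine (totalDegree_mul _ _).trans ?_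
      rw [totalDegree_C, zero_add]
      exact (totalDegree_X i).le
    calc m l * _ ≤ m l * 1 := Nat.mul_le_mul_left _ h3
      _ = m l := mul_one _
  refine (Finset.sum_le_sum fun l _ => h2 l).trans ?_
  have h4 := le_totalDegree hm
  rwa [Finsupp.sum_fintype _ _ (fun _ => rfl)] at h4

/-- a substitution with a one-sided inverse is injective -/
theorem lsub_zero [DecidableEq σ] {b : σ → τ → K} {c : τ → σ → K}
    (h : ∀ l l', ∑ i, b l i * c i l' = if l' = l then 1 else 0) {P : MvPolynomial σ K}
    (hP : lsub b P = 0) : P = 0 := by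
  have hφψ : (lsub c).comp (lsub b) = AlgHom.id K _ := by
    apply MvPolynomial.algHom_ext
    intro l
    rw [AlgHom.comp_apply, AlgHom.id_apply, lsub_X, map_sum]
    have h2 : ∀ i, lsub c (C (b l i) * X i) =
        ∑ l', C (b l i * c i l') * (X l' : MvPolynomial σ K) := by
      intro i
      have h4 : lsub c (C (b l i)) = C (b l i) := by
        rw [← algebraMap_eq, AlgHom.commutes, algebraMap_eq]
      rw [map_mul, lsub_X, h4, Finset.mul_sum]
      refine Finset.sum_congr rfl fun l' _ => ?_
      rw [C_mul, mul_assoc]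
    rw [Finset.sum_congr rfl fun i _ => h2 i, Finset.sum_comm]
    have h5 : ∀ l', ∑ i, C (b l i * c i l') * (X l' : MvPolynomial σ K) =
        C (if l' = l then 1 else 0) * X l' := by
      intro l'
      rw [← Finset.sum_mul, ← map_sum, h]
    rw [Finset.sum_congr rfl fun l' _ => h5 l']
    simp
  have h1 : lsub c (lsub b P) = P := by
    have := congrArg (fun F => F P) hφψ
    simpa using this
  rw [← h1, hP, map_zero]

theorem aeval_lsub {A : Type} [CommRing A] [Algebra K A] (b : σ → τ → K) {x : σ → A} {y : τ → A}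
    (h : ∀ l, ∑ i, b l i • y i = x l) (P : MvPolynomial σ K) : aeval x P = aeval y (lsub b P) := by
  have h1 : (aeval x : MvPolynomial σ K →ₐ[K] A) = (aeval y).comp (lsub b) := by
    apply MvPolynomial.algHom_ext
    intro l
    rw [AlgHom.comp_apply, aeval_X, lsub_X, map_sum, ← h l]
    refine Finset.sum_congr rfl fun i _ => ?_
    rw [map_mul, aeval_X, aeval_C, Algebra.smul_def]
  rw [h1]
  rfl

end subst

/-- elements of the spans of the tails in terms of finitely many elements of the sequence -/
theorem exists_matrix {t : ℕ → ℂ} (D s : ℕ)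
    (x : Fin s → ℂ) (hx : ∀ l, x l ∈ Submodule.span QB (t '' Set.Ici D))
    (hli : LinearIndependent QB x) : ∃ (r : ℕ) (b : Fin s → Fin r → QB) (c : Fin r → Fin s → QB),
      (∀ l, ∑ i, b l i • revTail D r t i = x l) ∧
      ∀ l l', ∑ i, b l i * c i l' = if l' = l then 1 else 0 := by
  classical
  -- finitely many elements of the tail
  have hmono : ∀ {r r' : ℕ}, r ≤ r' → Submodule.span QB (Set.range (revTail D r t)) ≤
      Submodule.span QB (Set.range (revTail D r' t)) := by
    intro r r' hrr
    apply Submodule.span_mono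
    rintro _ ⟨i, rfl⟩
    have hi := i.2
    refine ⟨⟨r' - 1 - (r - 1 - i), by omega⟩, ?_⟩
    simp only [revTail]
    congr 2
    omega
  have hex : ∀ z ∈ Submodule.span QB (t '' Set.Ici D), ∃ r,
      z ∈ Submodule.span QB (Set.range (revTail D r t)) := by
    intro z hz
    induction hz using Submodule.span_induction with
    | mem z hz =>
      obtain ⟨e, he, rfl⟩ := hz
      have he' : D ≤ e := he
      refine ⟨e - D + 1, Submodule.subset_span ⟨0, ?_⟩⟩
      rw [revTail_zero]
      congr 1
      omega
    | zero => exact ⟨0, zero_mem _⟩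
    | add a b _ _ ha hb =>
      obtain ⟨r, hr⟩ := ha
      obtain ⟨r', hr'⟩ := hb
      exact ⟨max r r', add_mem (hmono (le_max_left _ _) hr) (hmono (le_max_right _ _) hr')⟩
    | smul c a _ ha =>
      obtain ⟨r, hr⟩ := ha
      exact ⟨r, Submodule.smul_mem _ _ hr⟩
  choose r₀ hr₀ using fun l => hex (x l) (hx l)
  obtain ⟨r, hr⟩ : ∃ r, ∀ l, r₀ l ≤ r := ⟨∑ l, r₀ l, fun l =>
    Finset.single_le_sum (f := r₀) (fun _ _ => Nat.zero_le _) (Finset.mem_univ l)⟩
  have hxr := fun l => (Submodule.mem_span_range_iff_exists_fun QB).1 (hmono (hr l) (hr₀ l))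
  choose b hb using hxr
  -- a left inverse of the substitution
  let Bm : (Fin s → QB) →ₗ[QB] (Fin r → QB) := Fintype.linearCombination QB b
  have hBm : ∀ a, Bm a = ∑ l, a l • b l := fun a => Fintype.linearCombination_apply QB b a
  have hinj : LinearMap.ker Bm = ⊥ := by
    rw [LinearMap.ker_eq_bot']
    intro a ha
    rw [hBm] at ha
    funext l
    refine Fintype.linearIndependent_iff.1 hli a ?_ l
    have h1 : ∑ l, a l • x l = ∑ i, (∑ l, a l • b l) i • revTail D r t i := by
      simp only [Finset.sum_apply, Pi.smul_apply, Finset.sum_smul]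
      rw [Finset.sum_comm]
      refine Finset.sum_congr rfl fun l _ => ?_
      rw [← hb l, Finset.smul_sum]
      refine Finset.sum_congr rfl fun i _ => ?_
      rw [smul_smul, smul_eq_mul]
    rw [h1, ha]
    simp
  obtain ⟨Cm, hCm⟩ := LinearMap.exists_leftInverse_of_injective Bm hinj
  refine ⟨r, b, fun i l => Cm (Pi.single i 1) l, hb, fun l l' => ?_⟩
  have h6 : Cm (Bm (Pi.single l 1)) = Pi.single l 1 := by
    have := congrArg (fun F => F (Pi.single l 1)) hCm
    simpa using this
  have h7 : Bm (Pi.single l 1) = ∑ i, b l i • (Pi.single i 1 : Fin r → QB) := by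
    have h9 : Bm (Pi.single l 1) = b l := by
      rw [hBm, Finset.sum_eq_single l]
      · rw [Pi.single_eq_same, one_smul]
      · intro c _ hc
        rw [Pi.single_eq_of_ne hc, zero_smul]
      · intro h
        exact absurd (Finset.mem_univ l) h
    rw [h9]
    funext i
    simp [Finset.sum_apply, Pi.single_apply]
  rw [h7, map_sum] at h6
  have h8 := congrArg (fun v => v l') h6
  simp only [Finset.sum_apply, map_smul, Pi.smul_apply, smul_eq_mul, Pi.single_apply] at h8
  exact h8

/-- relations between elements of the spaces spanned by the tails: few exponentials -/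
theorem tail_sparse {f g : ℕ → ℕ} {t : ℕ → ℂ} (ht : ∀ n, CondN f g n t (t n)) (D s : ℕ)
    (x : Fin s → ℂ) (hx : ∀ l, x l ∈ Submodule.span QB (t '' Set.Ici D))
    (hli : LinearIndependent QB x) {M : ℕ} (hM : M ≤ f D) (γ : Fin M → QB)
    (hγ : Function.Injective γ)
    (P : Fin M → MvPolynomial (Fin s) QB) (hP : ∀ j, (P j).totalDegree ≤ g D)
    (h0 : ∑ j, Complex.exp (γ j : ℂ) * aeval x (P j) = 0) : P = 0 := by
  classical
  obtain ⟨r, b, c, hb, hbc⟩ := exists_matrix D s x hx hli
  have hV : GoodV M (prodFam (g D) (revTail D r t)) := goodV_le hM (goodV_revTail ht D r)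
  have h1 := good_poly hV γ hγ (fun j => lsub b (P j))
    (fun j i => (degreeOf_le_totalDegree _ _).trans ((totalDegree_lsub b (P j)).trans (hP j))) (by
      rw [← h0]
      exact Finset.sum_congr rfl fun j _ => by rw [aeval_lsub b hb])
  funext j
  exact lsub_zero hbc (congrFun h1 j)

/-- relations between elements of the spaces spanned by the tails: polynomial relations -/
theorem tail_poly {f g : ℕ → ℕ} {t : ℕ → ℂ} (ht : ∀ n, CondN f g n t (t n)) (D s : ℕ)
    (x : Fin s → ℂ) (hx : ∀ l, x l ∈ Submodule.span QB (t '' Set.Ici D))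
    (hli : LinearIndependent QB x) {k : ℕ} (hk : (g D + 1) ^ k ≤ f D) (α : Fin k → ℂ)
    (hα : ∀ i, IsAlgebraic ℚ (α i)) (hαli : LinearIndependent ℚ α)
    (P : MvPolynomial (Fin k ⊕ Fin s) QB) (hP : P.totalDegree ≤ g D)
    (h0 : aeval (Sum.elim (fun i => Complex.exp (α i)) x) P = 0) : P = 0 := by
  classical
  obtain ⟨r, b, c, hb, hbc⟩ := exists_matrix D s x hx hli
  have hV : GoodV ((g D + 1) ^ k) (prodFam (g D) (revTail D r t)) :=
    goodV_le hk (goodV_revTail ht D r)
  let b' : (Fin k ⊕ Fin s) → (Fin k ⊕ Fin r) → QB :=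
    Sum.elim (fun i => Sum.elim (fun j => if j = i then 1 else 0) (fun _ => 0))
      (fun l => Sum.elim (fun _ => 0) (fun i => b l i))
  let c' : (Fin k ⊕ Fin r) → (Fin k ⊕ Fin s) → QB :=
    Sum.elim (fun i => Sum.elim (fun j => if j = i then 1 else 0) (fun _ => 0))
      (fun l => Sum.elim (fun _ => 0) (fun i => c l i))
  have hbc' : ∀ l l', ∑ i, b' l i * c' i l' = if l' = l then 1 else 0 := by
    rintro (l | l) (l' | l')
    · simp [b', c', Fintype.sum_sum_type]
    · simp [b', c', Fintype.sum_sum_type]
    · simp [b', c', Fintype.sum_sum_type]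
    · simp [b', c', Fintype.sum_sum_type, hbc]
  have hb' : ∀ l, ∑ i, b' l i • (Sum.elim (fun i => Complex.exp (α i)) (revTail D r t)) i =
      Sum.elim (fun i => Complex.exp (α i)) x l := by
    rintro (l | l)
    · simp [b', Fintype.sum_sum_type]
    · simp [b', Fintype.sum_sum_type, hb]
  rw [aeval_lsub b' hb'] at h0
  have h1 := Pool.Agent.W2helper3.UE.poly k (g D) r (revTail D r t) (good_of_goodV hV) α hα hαli
    (lsub b' P) (fun i => (degreeOf_le_totalDegree _ _).trans ((totalDegree_lsub b' P).trans hP)) h0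
  exact lsub_zero hbc' h1

end Pool.Agent.W2helper76.UE
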