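import Pool.Agent.W2helper76.UE.Grid
import Pool.Agent.W2helper17.UE.Rand

/-!
# Universal sequences: sequences in given groups of infinite rank which are good for all exponents
-/

set_option autoImplicit false

namespace Pool.Agent.W2helper76.UE

open Pool.Agent.W2helper17.UE Filter Topology Pool.Agent.Y918.RP

/-- finitely many conditions with the grid property are satisfied by some subset sum -/
theorem exists_good {P : ℕ} (G B : Fin P → ℕ) : ∃ k : ℕ, ∀ bd : Fin P → ℂ → Prop,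
    (∀ i, GridB (G i) (B i) (bd i)) → ∀ w : Fin k → ℂ, LinearIndependent QB w →
    ∃ a : Fin k → ℤ, ∀ i, ¬ bd i (∑ j, (a j : ℂ) * w j) := by
  classical
  choose k₀ C δ hδ hδ4 hst using fun i => stepB (G i) (B i)
  -- the sum of the bounds is small for large `k`
  have htend : Tendsto (fun k : ℕ => ∑ i, (C i : ℝ) * ((2 : ℝ) ^ (-(δ i))) ^ k) atTop (𝓝 0) := by
    have h0 : (0 : ℝ) = ∑ i : Fin P, (C i : ℝ) * 0 := by simp
    rw [h0]
    apply tendsto_finsetSum
    intro i _
    apply Tendsto.const_mul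
    apply tendsto_pow_atTop_nhds_zero_of_lt_one (by positivity)
    exact Real.rpow_lt_one_of_one_lt_of_neg (by norm_num) (by linarith [hδ i])
  have h1 : ∀ᶠ k : ℕ in atTop, ∑ i, (C i : ℝ) * ((2 : ℝ) ^ (-(δ i))) ^ k < 1 :=
    htend.eventually (gt_mem_nhds one_pos)
  have h2 : ∀ᶠ k : ℕ in atTop, ∀ i, k₀ i ≤ k := by
    rw [eventually_all]
    exact fun i => eventually_ge_atTop _
  obtain ⟨k, hk1, hk2⟩ := (h1.and h2).exists
  refine ⟨k, fun bd hbd w hw => ?_⟩
  let A : Finset ℚ := {0, 1}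
  have hAc : A.card = 2 := by decide
  let X : ℕ → ℂ := fun n => if h : n < k then w ⟨n, h⟩ else 0
  have hX : ∀ i : Fin k, X (i : ℕ) = w i := by
    intro i
    simp [X]
  have hXli : LinearIndependent QB (fun i : Fin k => X (i : ℕ)) := by
    simpa only [hX] using hw
  by_contra hcon
  push Not at hcon
  -- every 0-1-vector is bad for some condition
  have h3 : (Fintype.piFinset fun _ : Fin k => A) ⊆ Finset.univ.biUnion fun i : Fin P =>
      (Fintype.piFinset fun _ : Fin k => A).filter (fun p : Fin k → ℚ =>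
        bd i (0 + ∑ j : Fin k, (p j : ℂ) * X (j : ℕ))) := by
    intro p hp
    obtain ⟨i, hi⟩ := hcon (fun j => (p j).num)
    rw [Finset.mem_biUnion]
    refine ⟨i, Finset.mem_univ _, Finset.mem_filter.2 ⟨hp, ?_⟩⟩
    have h4 : ∀ j, ((p j : ℚ) : ℂ) = (((p j).num : ℤ) : ℂ) := by
      intro j
      have h5 : p j ∈ A := Fintype.mem_piFinset.1 hp j
      have h6 : p j = 0 ∨ p j = 1 := by simpa [A] using h5
      rcases h6 with h6 | h6 <;> rw [h6] <;> norm_num
    rw [zero_add]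
    have h7 : ∑ j : Fin k, ((p j : ℚ) : ℂ) * X (j : ℕ) = ∑ j, (((p j).num : ℤ) : ℂ) * w j :=
      Finset.sum_congr rfl fun j _ => by rw [h4, hX]
    rw [h7]
    exact hi
  have h4 := (Finset.card_le_card h3).trans Finset.card_biUnion_le
  rw [Fintype.card_piFinset_const, hAc] at h4
  have h5 : ((2 : ℝ) ^ k) ≤ ∑ i, (C i : ℝ) * ((2 : ℝ) ^ (-(δ i))) ^ k * 2 ^ k := by
    have h6 : ((2 : ℝ) ^ k) ≤ ∑ i : Fin P, (((Fintype.piFinset fun _ : Fin k => A).filter
        (fun p : Fin k → ℚ => bd i (0 + ∑ j : Fin k, (p j : ℂ) * X (j : ℕ)))).card : ℝ) := by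
      exact_mod_cast h4
    refine h6.trans (Finset.sum_le_sum fun i _ => ?_)
    refine (hst i k (hk2 i) A ⟨0, by simp [A]⟩ (bd i) (hbd i) X hXli 0).trans (le_of_eq ?_)
    rw [hAc]
    push_cast
    rw [mul_assoc, ← Real.rpow_natCast ((2 : ℝ) ^ (-(δ i))), ← Real.rpow_mul (by norm_num),
      ← Real.rpow_natCast 2, ← Real.rpow_add (by norm_num)]
    congr 2
    ring
  rw [← Finset.sum_mul] at h5
  have h6 : (0 : ℝ) < 2 ^ k := by positivity
  nlinarith

/-- the tail of a sequence in reversed order -/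
def revTail (D r : ℕ) (t : ℕ → ℂ) : Fin r → ℂ := fun i => t (D + (r - 1 - i))

theorem revTail_zero (D r : ℕ) (t : ℕ → ℂ) : revTail D (r + 1) t 0 = t (D + r) := by
  simp [revTail]

theorem revTail_tail (D r : ℕ) (t : ℕ → ℂ) : Fin.tail (revTail D (r + 1) t) = revTail D r t := by
  funext i
  simp only [Fin.tail, revTail, Fin.val_succ]
  congr 2
  omega

/-- the conditions for the element number `n` of a sequence -/
def CondN (f g : ℕ → ℕ) (n : ℕ) (t : ℕ → ℂ) (x : ℂ) : Prop :=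
  ∀ D ≤ n, ¬ Bad QB expQ (f D) (g D) (prodFam (g D) (revTail D (n - D) t)) x

theorem condN_congr {f g : ℕ → ℕ} {n : ℕ} {t t' : ℕ → ℂ} (h : ∀ m < n, t m = t' m) {x : ℂ}
    (hc : CondN f g n t x) : CondN f g n t' x := by
  intro D hD
  have h1 : revTail D (n - D) t' = revTail D (n - D) t := by
    funext i
    simp only [revTail]
    refine (h _ ?_).symm
    have := i.2
    omega
  rw [h1]
  exact hc D hD

theorem exists_condN (hG : GridStm) (f g : ℕ → ℕ) (Λ : AddSubgroup ℂ)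
    (hΛ : ∀ x ∈ Λ, IsAlgebraic ℚ (Complex.exp x))
    (rΛ : ∀ R : ℕ, ∃ w : Fin R → ℂ, (∀ j, w j ∈ Λ) ∧ LinearIndependent ℚ w) (n : ℕ) (t : ℕ → ℂ) :
    ∃ x ∈ Λ, CondN f g n t x := by
  classical
  choose G B hGB using fun D : Fin (n + 1) =>
    hG (Fintype.card (Fin (n - D) → Fin (g D + 1))) (f D) (g D)
  obtain ⟨k, hk⟩ := exists_good G B
  obtain ⟨w, hwΛ, hw⟩ := rΛ k
  obtain ⟨a, ha⟩ := hk (fun D x => Bad QB expQ (f D) (g D)
      (prodFam (g D) (revTail D (n - D) t)) x) (by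
    intro D x₀ u hu
    let e := (Fintype.equivFin (Fin (n - D) → Fin (g D + 1))).symm
    obtain ⟨η, hη⟩ := hGB D (prodFam (g D) (revTail D (n - D) t) ∘ e) x₀ u hu
    exact ⟨η, fun hbad => hη (Pool.Agent.W2helper17.UE.Bad.reindex e hbad)⟩) w (li_QB_of_logs (fun j => hΛ _ (hwΛ j)) hw)
  refine ⟨∑ j, (a j : ℂ) * w j, ?_, fun D hD => ha ⟨D, by omega⟩⟩
  apply sum_mem
  intro j _
  rw [← zsmul_eq_mul]
  exact Λ.zsmul_mem (hwΛ j) _

/-- a sequence constructed step by step -/
noncomputable def seqOf (F : ℕ → (ℕ → ℂ) → ℂ) : ℕ → ℂ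
  | n => F n (fun m => if _ : m < n then seqOf F m else 0)

theorem exists_seq (hG : GridStm) (f g : ℕ → ℕ) (Λ : ℕ → AddSubgroup ℂ)
    (hΛ : ∀ i, ∀ x ∈ Λ i, IsAlgebraic ℚ (Complex.exp x))
    (rΛ : ∀ i R : ℕ, ∃ w : Fin R → ℂ, (∀ j, w j ∈ Λ i) ∧ LinearIndependent ℚ w) :
    ∃ t : ℕ → ℂ, (∀ i, t i ∈ Λ i) ∧ ∀ n, CondN f g n t (t n) := by
  choose F hF1 hF2 using fun n t => exists_condN hG f g (Λ n) (hΛ n) (rΛ n) n t
  have heq : ∀ n, seqOf F n = F n (fun m => if _ : m < n then seqOf F m else 0) := by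
    intro n
    rw [seqOf]
  refine ⟨seqOf F, fun i => ?_, fun n => ?_⟩
  · rw [heq]
    exact hF1 _ _
  · have h1 := hF2 n (fun m => if _ : m < n then seqOf F m else 0)
    rw [← heq] at h1
    refine condN_congr (fun m hm => ?_) h1
    simp [hm]

theorem goodV_revTail {f g : ℕ → ℕ} {t : ℕ → ℂ} (ht : ∀ n, CondN f g n t (t n)) (D r : ℕ) :
    GoodV (f D) (prodFam (g D) (revTail D r t)) := by
  induction r with
  | zero => exact goodV_base _ _ _
  | succ r ih =>
    apply goodV_cons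
    · rw [revTail_tail]
      exact ih
    · rw [revTail_tail, revTail_zero]
      have h1 := ht (D + r) D (by omega)
      rw [Nat.add_sub_cancel_left] at h1
      exact h1

/-- extension of an injective family -/
theorem extend_inj {M : ℕ} (γ : Fin M → QB) (hγ : Function.Injective γ) (d : ℕ) :
    ∃ γ' : Fin (M + d) → QB, Function.Injective γ' ∧ ∀ j : Fin M, γ' (Fin.castAdd d j) = γ j := by
  classical
  have : Infinite QB := inferInstance
  induction d with
  | zero => exact ⟨γ, hγ, fun j => rfl⟩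
  | succ d ih =>
    obtain ⟨γ', h1, h2⟩ := ih
    obtain ⟨x, hx⟩ := Infinite.exists_notMem_finset (Finset.univ.image γ')
    refine ⟨Fin.snoc (α := fun _ => QB) γ' x, ?_, fun j => ?_⟩
    · intro a b
      refine Fin.lastCases ?_ (fun a => ?_) a
      · refine Fin.lastCases ?_ (fun b => ?_) b
        · exact fun _ => rfl
        · intro h
          rw [Fin.snoc_last, Fin.snoc_castSucc] at h
          exact absurd (Finset.mem_image.2 ⟨b, Finset.mem_univ _, h.symm⟩) hx
      · refine Fin.lastCases ?_ (fun b => ?_) b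
        · intro h
          rw [Fin.snoc_last, Fin.snoc_castSucc] at h
          exact absurd (Finset.mem_image.2 ⟨a, Finset.mem_univ _, h⟩) hx
        · intro h
          rw [Fin.snoc_castSucc, Fin.snoc_castSucc] at h
          rw [h1 h]
    · have h3 : (Fin.castAdd (d + 1) j : Fin (M + d + 1)) = (Fin.castAdd d j).castSucc := rfl
      have h4 : Fin.snoc (α := fun _ => QB) γ' x (Fin.castAdd (d + 1) j : Fin (M + d + 1)) = γ j := by
        rw [h3, Fin.snoc_castSucc, h2]
      exact h4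

/-- fewer exponentials -/
theorem goodV_le {M M' : ℕ} (hM : M ≤ M') {L : Type} {v : L → ℂ} (h : GoodV M' v) : GoodV M v := by
  intro γ hγ
  obtain ⟨d, rfl⟩ := Nat.exists_eq_add_of_le hM
  obtain ⟨γ', hγ', he⟩ : ∃ γ' : Fin (M + d) → QB, Function.Injective γ' ∧
      ∀ j : Fin M, γ' (Fin.castLE hM j) = γ j := by
    obtain ⟨γ', h1, h2⟩ := extend_inj γ hγ d
    exact ⟨γ', h1, fun j => h2 j⟩
  have h2 := (h γ' hγ').comp (fun p : L × Fin M => (p.1, Fin.castLE hM p.2)) (by
    intro a b hab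
    obtain ⟨h3, h4⟩ := Prod.ext_iff.mp hab
    exact Prod.ext h3 (Fin.castLE_injective hM h4))
  convert h2 using 1
  funext p
  simp only [Function.comp, he]

end Pool.Agent.W2helper76.UE
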